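import Mathlib

/-!
# Binary codes
-/

namespace Pool.Agent.FairDiv

/-- the `n` lowest bits of `d`, lowest first -/
def bitsN (n d : ℕ) : List Bool := (List.range n).map (fun j => d.testBit j)

/-- removes the zeros at the end -/
def strip (l : List Bool) : List Bool :=
  (l.reverse.foldl (fun (s : Bool × List Bool) a => if s.1 || a then (true, a :: s.2) else s)
    (false, [])).2

/-- the value of a list of bits, lowest first -/
def valB : List Bool → ℕ
  | [] => 0
  | b :: l => b.toNat + 2 * valB l

theorem valB_append (l l' : List Bool) : valB (l ++ l') = valB l + 2 ^ l.length * valB l' := by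
  induction l with
  | nil => simp [valB]
  | cons b l ih =>
    simp only [List.cons_append, valB, List.length_cons, ih]
    ring

private def bin_f (s : Bool × List Bool) (a : Bool) : Bool × List Bool :=
  if s.1 || a then (true, a :: s.2) else s

private def bin_S (l : List Bool) : Bool × List Bool := l.reverse.foldl bin_f (false, [])

private theorem bin_strip (l : List Bool) : strip l = (bin_S l).2 := rfl

private theorem bin_S_cons (b : Bool) (l : List Bool) : bin_S (b :: l) = bin_f (bin_S l) b := by
  simp only [bin_S, List.reverse_cons, List.foldl_append, List.foldl_cons, List.foldl_nil]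

private theorem bin_inv (l : List Bool) : (bin_S l).1 = true ↔ (bin_S l).2 ≠ [] := by
  induction l with
  | nil => simp [bin_S]
  | cons b l ih =>
    rw [bin_S_cons]
    unfold bin_f
    by_cases h : ((bin_S l).1 || b) = true
    · simp [h]
    · rw [if_neg h]
      exact ih

/-- `strip (b :: l) = if strip l = [] ∧ b = false then [] else b :: strip l` -/
theorem strip_cons (b : Bool) (l : List Bool) :
    strip (b :: l) = if strip l = [] ∧ b = false then [] else b :: strip l := by
  rw [bin_strip, bin_S_cons, bin_strip]
  have h := bin_inv l
  unfold bin_f
  cases b with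
  | true => simp
  | false =>
    by_cases h1 : (bin_S l).2 = []
    · have h2 : (bin_S l).1 = false := by
        by_contra h3
        exact (h.1 (by simpa using h3)) h1
      simp [h1, h2]
    · have h2 : (bin_S l).1 = true := h.2 h1
      simp [h1, h2]

private theorem bin_enc_zero : Computability.encodeNat 0 = [] := by
  have : ((0 : ℕ) : Num) = Num.zero := by rw [Nat.cast_zero]; rfl
  unfold Computability.encodeNat
  rw [this]
  rfl

private theorem bin_enc_bit (b : Bool) (n : ℕ) : Computability.encodeNat (Nat.bit b n) =
    if n = 0 ∧ b = false then [] else b :: Computability.encodeNat n := by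
  have h : ((Nat.bit b n : ℕ) : Num) = cond b Num.bit1 Num.bit0 (n : Num) := by
    rw [← Num.ofNat'_eq, Num.ofNat'_bit, Num.ofNat'_eq]
  have h0 : ((n : Num) : ℕ) = n := Num.to_of_nat n
  unfold Computability.encodeNat
  rw [h]
  generalize (n : Num) = m at h0
  subst h0
  cases m with
  | zero => cases b <;> rfl
  | pos p =>
    have hp : ¬ (((Num.pos p : Num) : ℕ) = 0 ∧ b = false) := by
      rintro ⟨h1, -⟩
      have h2 : (0 : ℕ) < (p : ℕ) := PosNum.cast_pos p
      have h3 : ((Num.pos p : Num) : ℕ) = (p : ℕ) := rfl
      omega
    rw [if_neg hp]
    cases b <;> rfl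

private theorem bin_strip_nil (l : List Bool) : strip l = [] ↔ valB l = 0 := by
  induction l with
  | nil => simp [strip, valB]
  | cons b l ih =>
    rw [strip_cons]
    cases b with
    | true => simp [valB]
    | false =>
      by_cases h : strip l = []
      · simp [h, valB, ih.1 h]
      · have : valB l ≠ 0 := fun h1 => h (ih.2 h1)
        simp [h, valB, this]

/-- `Computability.encodeNat` is the binary code, lowest bit first, without zeros at the end -/
theorem encodeNat_valB (l : List Bool) : Computability.encodeNat (valB l) = strip l := by
  induction l with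
  | nil => exact bin_enc_zero
  | cons b l ih =>
    have h1 : valB (b :: l) = Nat.bit b (valB l) := by
      rw [Nat.bit_val]
      simp only [valB]
      ring
    rw [h1, bin_enc_bit, strip_cons, ih]
    have h2 := bin_strip_nil l
    by_cases h3 : strip l = []
    · simp [h3, h2.1 h3]
    · have h4 : valB l ≠ 0 := fun h => h3 (h2.2 h)
      simp [h3, h4]

private theorem bin_len (n d : ℕ) : (bitsN n d).length = n := by simp [bitsN]

private theorem bin_rep (s : ℕ) : valB (List.replicate s false) = 0 := by
  induction s with
  | zero => simp [valB]
  | succ s ih => simp [List.replicate_succ, valB, ih]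

theorem valB_bitsN {n d : ℕ} (h : d < 2 ^ n) : valB (bitsN n d) = d := by
  have key : ∀ n : ℕ, valB (bitsN n d) = d % 2 ^ n := by
    intro n
    induction n with
    | zero => simp [bitsN, valB, Nat.mod_one]
    | succ n ih =>
      have h1 : bitsN (n + 1) d = bitsN n d ++ [d.testBit n] := by
        simp [bitsN, List.range_succ]
      rw [h1, valB_append, ih, Nat.mod_pow_succ, ← Nat.toNat_testBit, bin_len]
      simp only [valB]
      ring
  rw [key n, Nat.mod_eq_of_lt h]

theorem encode_shift (n s : ℕ) (ds : List ℕ) (h : ∀ d ∈ ds, d < 2 ^ n) :
    Computability.encodeNat (2 ^ s * Nat.ofDigits (2 ^ n) ds) =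
      strip (List.replicate s false ++ ds.flatMap (bitsN n)) := by
  rw [← encodeNat_valB, valB_append, bin_rep]
  have key : valB (ds.flatMap (bitsN n)) = Nat.ofDigits (2 ^ n) ds := by
    induction ds with
    | nil => simp [valB]
    | cons d ds ih =>
      rw [List.flatMap_cons, valB_append, bin_len, valB_bitsN (h d (by simp)), Nat.ofDigits_cons,
        ih (fun e he => h e (by simp [he]))]
  rw [key]
  simp

theorem encode_pow (s : ℕ) : Computability.encodeNat (2 ^ s) = List.replicate s false ++ [true] := by
  have h1 : 2 ^ s = valB (List.replicate s false ++ [true]) := by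
    rw [valB_append, bin_rep]
    simp [valB]
  rw [h1, encodeNat_valB]
  clear h1
  induction s with
  | zero => simp [strip]
  | succ s ih =>
    rw [List.replicate_succ, List.cons_append, strip_cons, ih]
    simp

end Pool.Agent.FairDiv
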