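import Mathlib
import Pool.Prelude.Def_F_458e953d

/-!
# Fair division with few sharings: definitions

`n` agents, `m` objects, a matrix `v` of values (natural numbers). An instance is given by the list of
the entries of the matrix, row by row; so the number of objects is the length of the list divided by `n`.
-/

namespace Pool.Agent.FairDiv

/-- `z` is an allocation: `z i o` is the share of agent `i` in object `o`. -/
structure IsAlloc {n m : ℕ} (z : Fin n → Fin m → ℝ) : Prop where
  nonneg : ∀ i o, 0 ≤ z i o
  total : ∀ o, ∑ i, z i o = 1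

/-- The value of the bundle of agent `j` for agent `i`. -/
noncomputable def val {n m : ℕ} (v : Fin n → Fin m → ℕ) (z : Fin n → Fin m → ℝ) (i j : Fin n) : ℝ :=
  ∑ o, (v i o : ℝ) * z j o

/-- Proportionality. -/
def IsProp {n m : ℕ} (v : Fin n → Fin m → ℕ) (z : Fin n → Fin m → ℝ) : Prop :=
  ∀ i, (∑ o, (v i o : ℝ)) / n ≤ val v z i i

/-- Envy-freeness. -/
def IsEF {n m : ℕ} (v : Fin n → Fin m → ℕ) (z : Fin n → Fin m → ℝ) : Prop :=
  ∀ i j, val v z i j ≤ val v z i i

open scoped Classical in
/-- The number of sharings: every object with `k` owners counts `k - 1`. -/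
noncomputable def sharings {n m : ℕ} (z : Fin n → Fin m → ℝ) : ℕ :=
  ∑ o, ((Finset.univ.filter fun i => 0 < z i o).card - 1)

/-- The matrix given by the list of its entries, row by row. -/
def mat (n : ℕ) (y : List ℕ) : Fin n → Fin (y.length / n) → ℕ :=
  fun i o => y.getD (i.val * (y.length / n) + o.val) 0

/-- The decision problem PROP-Sharings(n, s). -/
def PropSharings (n s : ℕ) (y : List ℕ) : Prop :=
  ∃ z : Fin n → Fin (y.length / n) → ℝ, IsAlloc z ∧ IsProp (mat n y) z ∧ sharings z ≤ s

/-- The decision problem EF-Sharings(n, s). -/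
def EFSharings (n s : ℕ) (y : List ℕ) : Prop :=
  ∃ z : Fin n → Fin (y.length / n) → ℝ, IsAlloc z ∧ IsEF (mat n y) z ∧ sharings z ≤ s

/-- The problem `Q`, whose inputs are the vectors of `t` natural numbers in `[0, 2 ^ (c t)]` with
`n ∣ t`, is generically NP-hard: there are an NP-hard language `L`, a polynomial time computable map
`h` from words to inputs and a super-polynomial function `g` such that all vectors within
`ℓ_∞`-distance `g t` of `h x` (`t` is the length of `h x`) have the same answer as `x`. -/
def GenericallyNPHard (n : ℕ) (Q : List ℕ → Prop) : Prop :=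
  ∃ (c : ℕ) (L : List Bool → Bool) (h : List Bool → List ℕ) (g : ℕ → ℕ),
    (∀ L' ∈ N68a2faeb.NP, N793a5b8e.ManyOneReducible L' L) ∧
    N68a2faeb.IsPolyTime h ∧
    (∀ k : ℕ, ∃ t₀, ∀ t, t₀ ≤ t → t ^ k ≤ g t) ∧
    ∀ x, n ∣ (h x).length ∧ (∀ a ∈ h x, a ≤ 2 ^ (c * (h x).length)) ∧
      ∀ y : List ℕ, y.length = (h x).length →
        (∀ i, |((y.getD i 0 : ℕ) : ℤ) - ((h x).getD i 0 : ℕ)| ≤ (g (h x).length : ℤ)) →
          (Q y ↔ L x = true)

/-! ### The instance of the reduction -/

/-- The instance for the weights `A`: with `t = n * (A.length + n)` (the number of entries) every agent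
has the value `2 ^ (4 t) * a` for the number objects, and there is a private object for every agent,
with the value `2 ^ (2 t)` for this agent and `0` for the others. -/
def inst (n : ℕ) (A : List ℕ) : List ℕ :=
  (List.range n).flatMap (fun i =>
    A.map (fun a => 2 ^ (4 * (n * (A.length + n))) * a) ++
    (List.range n).map (fun j => if j = i then 2 ^ (2 * (n * (A.length + n))) else 0))

/-- There is a subset of the weights (given by the positions) with the sum `k * τ`, `1 ≤ k < n`. -/
def SubK (n : ℕ) (A : List ℕ) (τ : ℕ) : Prop :=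
  ∃ k, 1 ≤ k ∧ k < n ∧ ∃ χ : ℕ → Bool,
    ∑ o ∈ Finset.range A.length, (if χ o then A.getD o 0 else 0) = k * τ

end Pool.Agent.FairDiv
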