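import Mathlib

/-!
# Cutting along a line
-/

namespace Pool.Agent.FairDiv

open Finset

variable {O : Type} [DecidableEq O]

/-- Positive real weights with the sum `(p + 1) τ` are divided between `p + 1` agents, everybody
gets exactly `τ`, with at most `p` sharings. -/
theorem cutR {τ : ℝ} (hτ : 0 < τ) : ∀ (p : ℕ) (R : Finset O) (b : O → ℝ), (∀ o ∈ R, 0 < b o) →
    ∑ o ∈ R, b o = (p + 1) * τ →
    ∃ z : Fin (p + 1) → O → ℝ, (∀ j o, 0 ≤ z j o) ∧ (∀ o ∈ R, ∑ j, z j o = 1) ∧
      (∀ j, ∑ o ∈ R, b o * z j o = τ) ∧
      ∑ o ∈ R, ((univ.filter fun j => 0 < z j o).card - 1) ≤ p := by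
  intro p
  induction p with
  | zero =>
    intro R b hb hsum
    refine ⟨fun _ _ => 1, fun _ _ => zero_le_one, fun o _ => by simp, fun j => ?_, ?_⟩
    · simp_rw [mul_one]
      rw [hsum]
      push_cast
      ring
    · refine (sum_eq_zero fun o _ => ?_).le
      simp
  | succ p ih =>
    intro R b hb hsum
    -- a maximal subset of weight less than `τ`
    obtain ⟨R', hR', hmax⟩ : ∃ R' ∈ R.powerset.filter fun s => ∑ o ∈ s, b o < τ,
        ∀ s ∈ R.powerset.filter (fun s => ∑ o ∈ s, b o < τ), s.card ≤ R'.card :=
      exists_max_image _ card ⟨∅, by simpa using hτ⟩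
    rw [mem_filter, mem_powerset] at hR'
    obtain ⟨hsub, hlt⟩ := hR'
    have hne : ∃ o ∈ R, o ∉ R' := by
      by_contra hcon
      push Not at hcon
      have h1 : R' = R := subset_antisymm hsub hcon
      rw [h1, hsum] at hlt
      have h2 : (0 : ℝ) ≤ p := Nat.cast_nonneg p
      push_cast at hlt
      nlinarith
    obtain ⟨o', ho', hoR'⟩ := hne
    have hge : τ ≤ ∑ o ∈ R', b o + b o' := by
      by_contra hcon
      push Not at hcon
      have h1 := hmax (insert o' R') (by
        rw [mem_filter, mem_powerset]
        refine ⟨insert_subset ho' hsub, ?_⟩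
        rw [sum_insert hoR']
        linarith)
      rw [card_insert_of_notMem hoR'] at h1
      omega
    have hbo' : 0 < b o' := hb o' ho'
    set δ : ℝ := τ - ∑ o ∈ R', b o with hδ
    have hδ0 : 0 < δ := by linarith
    -- the rest
    rcases hge.lt_or_eq with hgt | heq
    · -- `o'` is divided
      have hδ1 : δ < b o' := by linarith
      let b' : O → ℝ := fun o => if o = o' then b o' - δ else b o
      obtain ⟨z, z1, z2, z3, z4⟩ := ih (R \ R') b' (fun o ho => by
        simp only [b']
        split_ifs with h
        · linarith
        · exact hb o (mem_sdiff.1 ho).1) (by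
        have h1 : ∑ o ∈ R \ R', b o = (p + 2) * τ - ∑ o ∈ R', b o := by
          have := sum_sdiff (f := b) hsub
          rw [hsum] at this
          push_cast at this
          linarith
        have h2 : o' ∈ R \ R' := mem_sdiff.2 ⟨ho', hoR'⟩
        have h3 : ∑ o ∈ R \ R', b' o = ∑ o ∈ R \ R', b o - δ := by
          rw [← add_sum_erase _ b' h2, ← add_sum_erase _ b h2]
          have h4 : ∑ o ∈ (R \ R').erase o', b' o = ∑ o ∈ (R \ R').erase o', b o :=
            sum_congr rfl fun o ho => by simp only [b']; rw [if_neg (mem_erase.1 ho).1]
          rw [h4]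
          simp only [b', if_true]
          ring
        rw [h3, h1, hδ]
        ring)
      let w : Fin (p + 1 + 1) → O → ℝ := fun j o => Fin.cases
        (if o ∈ R' then 1 else if o = o' then δ / b o' else 0)
        (fun j => if o ∈ R' then 0 else if o = o' then z j o * ((b o' - δ) / b o') else z j o) j
      have w0 : ∀ o, w 0 o = if o ∈ R' then 1 else if o = o' then δ / b o' else 0 := fun _ => rfl
      have ws : ∀ (j : Fin (p + 1)) o, w j.succ o =
          if o ∈ R' then 0 else if o = o' then z j o * ((b o' - δ) / b o') else z j o :=
        fun _ _ => rfl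
      have hr0 : 0 < (b o' - δ) / b o' := div_pos (by linarith) hbo'
      refine ⟨w, fun j o => ?_, fun o ho => ?_, fun j => ?_, ?_⟩
      · refine Fin.cases ?_ (fun j => ?_) j
        · rw [w0]
          split_ifs
          · exact zero_le_one
          · exact (div_pos hδ0 hbo').le
          · exact le_rfl
        · rw [ws]
          split_ifs
          · exact le_rfl
          · exact mul_nonneg (z1 j o) hr0.le
          · exact z1 j o
      · rw [Fin.sum_univ_succ, w0]
        simp_rw [ws]
        by_cases h1 : o ∈ R'
        · simp [h1]
        · simp only [if_neg h1]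
          have hoR : o ∈ R \ R' := mem_sdiff.2 ⟨ho, h1⟩
          by_cases h2 : o = o'
          · simp only [if_pos h2]
            rw [← sum_mul, z2 o hoR, one_mul]
            field_simp
            ring
          · simp only [if_neg h2]
            rw [z2 o hoR, zero_add]
      · refine Fin.cases ?_ (fun j => ?_) j
        · have h1 : ∑ o ∈ R \ R', b o * w 0 o = δ := by
            have h2 : o' ∈ R \ R' := mem_sdiff.2 ⟨ho', hoR'⟩
            rw [← add_sum_erase _ _ h2]
            have h3 : ∑ o ∈ (R \ R').erase o', b o * w 0 o = 0 := sum_eq_zero fun o ho => by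
              rw [w0, if_neg (mem_sdiff.1 (mem_erase.1 ho).2).2, if_neg (mem_erase.1 ho).1, mul_zero]
            rw [h3, w0, if_neg hoR', if_pos rfl, add_zero]
            field_simp
          have h4 : ∑ o ∈ R', b o * w 0 o = ∑ o ∈ R', b o := sum_congr rfl fun o ho => by
            rw [w0, if_pos ho, mul_one]
          rw [← sum_sdiff hsub, h1, h4, hδ]
          ring
        · have h4 : ∑ o ∈ R', b o * w j.succ o = 0 := sum_eq_zero fun o ho => by
            rw [ws, if_pos ho, mul_zero]
          rw [← sum_sdiff hsub, h4, add_zero, ← z3 j]
          refine sum_congr rfl fun o ho => ?_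
          rw [ws, if_neg (mem_sdiff.1 ho).2]
          simp only [b']
          by_cases h2 : o = o'
          · rw [if_pos h2, if_pos h2, h2]
            field_simp
          · rw [if_neg h2, if_neg h2]
      · -- sharings
        have hcard : ∀ o, (univ.filter fun j => 0 < w j o).card =
            (if 0 < w 0 o then 1 else 0) + (univ.filter fun j : Fin (p + 1) => 0 < w j.succ o).card := by
          intro o
          rw [card_filter, card_filter, Fin.sum_univ_succ]
        have hc1 : ∀ o ∈ R', (univ.filter fun j => 0 < w j o).card - 1 = 0 := by
          intro o ho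
          rw [hcard]
          have : (univ.filter fun j : Fin (p + 1) => 0 < w j.succ o) = ∅ := by
            rw [filter_eq_empty_iff]
            intro j _
            rw [ws, if_pos ho]
            exact lt_irrefl _
          rw [this, card_empty]
          split_ifs <;> rfl
        have hc2 : ∀ o ∈ R \ R', (univ.filter fun j => 0 < w j o).card - 1 ≤
            ((univ.filter fun j => 0 < z j o).card - 1) + if o = o' then 1 else 0 := by
          intro o ho
          rw [hcard]
          have hoR' := (mem_sdiff.1 ho).2
          have h3 : (univ.filter fun j : Fin (p + 1) => 0 < w j.succ o) =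
              univ.filter fun j => 0 < z j o := by
            refine filter_congr fun j _ => ?_
            rw [ws, if_neg hoR']
            by_cases h2 : o = o'
            · rw [if_pos h2]
              exact mul_pos_iff_of_pos_right hr0
            · rw [if_neg h2]
          have h4 : 1 ≤ (univ.filter fun j => 0 < z j o).card := by
            by_contra hcon
            have h5 : (univ.filter fun j => 0 < z j o) = ∅ := by
              rw [← card_eq_zero]; omega
            rw [filter_eq_empty_iff] at h5
            have h6 : ∑ j, z j o ≤ 0 := sum_nonpos fun j hj => not_lt.1 (h5 hj)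
            rw [z2 o ho] at h6
            linarith
          rw [h3]
          by_cases h2 : o = o'
          · rw [if_pos h2]
            split_ifs <;> omega
          · rw [if_neg h2]
            have : ¬ 0 < w 0 o := by
              rw [w0, if_neg hoR', if_neg h2]
              exact lt_irrefl _
            rw [if_neg this]
            omega
        rw [← sum_sdiff hsub, sum_eq_zero hc1, add_zero]
        calc ∑ o ∈ R \ R', ((univ.filter fun j => 0 < w j o).card - 1) ≤
              ∑ o ∈ R \ R', (((univ.filter fun j => 0 < z j o).card - 1) + if o = o' then 1 else 0) :=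
              sum_le_sum hc2
          _ ≤ p + 1 := by
            rw [sum_add_distrib, sum_ite_eq', if_pos (mem_sdiff.2 ⟨ho', hoR'⟩)]
            omega
    · -- exact: `o'` goes to agent 0
      set R1 := insert o' R' with hR1
      have hsub1 : R1 ⊆ R := insert_subset ho' hsub
      have hb1 : ∑ o ∈ R1, b o = τ := by
        rw [hR1, sum_insert hoR', heq]
        ring
      obtain ⟨z, z1, z2, z3, z4⟩ := ih (R \ R1) b (fun o ho => hb o (mem_sdiff.1 ho).1) (by
        have := sum_sdiff (f := b) hsub1
        rw [hsum, hb1] at this
        push_cast at this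
        linarith)
      let w : Fin (p + 1 + 1) → O → ℝ := fun j o => Fin.cases
        (if o ∈ R1 then 1 else 0) (fun j => if o ∈ R1 then 0 else z j o) j
      have w0 : ∀ o, w 0 o = if o ∈ R1 then 1 else 0 := fun _ => rfl
      have ws : ∀ (j : Fin (p + 1)) o, w j.succ o = if o ∈ R1 then 0 else z j o := fun _ _ => rfl
      refine ⟨w, fun j o => ?_, fun o ho => ?_, fun j => ?_, ?_⟩
      · refine Fin.cases ?_ (fun j => ?_) j
        · rw [w0]
          split_ifs
          · exact zero_le_one
          · exact le_rfl
        · rw [ws]
          split_ifs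
          · exact le_rfl
          · exact z1 j o
      · rw [Fin.sum_univ_succ, w0]
        simp_rw [ws]
        by_cases h1 : o ∈ R1
        · simp [h1]
        · simp only [if_neg h1]
          rw [z2 o (mem_sdiff.2 ⟨ho, h1⟩), zero_add]
      · refine Fin.cases ?_ (fun j => ?_) j
        · have h1 : ∑ o ∈ R \ R1, b o * w 0 o = 0 := sum_eq_zero fun o ho => by
            rw [w0, if_neg (mem_sdiff.1 ho).2, mul_zero]
          have h4 : ∑ o ∈ R1, b o * w 0 o = ∑ o ∈ R1, b o := sum_congr rfl fun o ho => by
            rw [w0, if_pos ho, mul_one]
          rw [← sum_sdiff hsub1, h1, h4, hb1, zero_add]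
        · have h4 : ∑ o ∈ R1, b o * w j.succ o = 0 := sum_eq_zero fun o ho => by
            rw [ws, if_pos ho, mul_zero]
          rw [← sum_sdiff hsub1, h4, add_zero, ← z3 j]
          refine sum_congr rfl fun o ho => ?_
          rw [ws, if_neg (mem_sdiff.1 ho).2]
      · have hcard : ∀ o, (univ.filter fun j => 0 < w j o).card =
            (if 0 < w 0 o then 1 else 0) + (univ.filter fun j : Fin (p + 1) => 0 < w j.succ o).card := by
          intro o
          rw [card_filter, card_filter, Fin.sum_univ_succ]
        have hc1 : ∀ o ∈ R1, (univ.filter fun j => 0 < w j o).card - 1 = 0 := by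
          intro o ho
          rw [hcard]
          have : (univ.filter fun j : Fin (p + 1) => 0 < w j.succ o) = ∅ := by
            rw [filter_eq_empty_iff]
            intro j _
            rw [ws, if_pos ho]
            exact lt_irrefl _
          rw [this, card_empty]
          split_ifs <;> rfl
        have hc2 : ∀ o ∈ R \ R1, (univ.filter fun j => 0 < w j o).card - 1 ≤
            ((univ.filter fun j => 0 < z j o).card - 1) := by
          intro o ho
          rw [hcard]
          have hoR' := (mem_sdiff.1 ho).2
          have h3 : (univ.filter fun j : Fin (p + 1) => 0 < w j.succ o) =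
              univ.filter fun j => 0 < z j o := by
            refine filter_congr fun j _ => ?_
            rw [ws, if_neg hoR']
          rw [h3]
          have : ¬ 0 < w 0 o := by
            rw [w0, if_neg hoR']
            exact lt_irrefl _
          rw [if_neg this]
          omega
        rw [← sum_sdiff hsub1, sum_eq_zero hc1, add_zero]
        exact ((sum_le_sum hc2).trans z4).trans (Nat.le_succ p)

end Pool.Agent.FairDiv
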