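import Pool.Agent.Lib_MP_42f051_lc.CoreYes
import Pool.Agent.Lib_MP_42f051_lc.LineCut

/-!
# The combinatorial core
-/

namespace Pool.Agent.FairDiv

open Finset

theorem inst_length (n : ℕ) (A : List ℕ) : (inst n A).length = n * (A.length + n) := by
  unfold inst
  rw [List.length_flatMap]
  simp

theorem flatMap_getD {α : Type} {F : α → List ℕ} {w : ℕ} (hF : ∀ x, (F x).length = w) :
    ∀ (l : List α) (i o : ℕ) (hi : i < l.length), o < w →
      (l.flatMap F).getD (i * w + o) 0 = (F l[i]).getD o 0 := by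
  intro l
  induction l with
  | nil => intro i o hi; simp at hi
  | cons x l ih =>
    intro i o hi ho
    rw [List.flatMap_cons]
    cases i with
    | zero =>
      rw [Nat.zero_mul, Nat.zero_add, List.getD_append _ _ _ _ (by rw [hF]; exact ho)]
      rfl
    | succ i =>
      have h1 : (F x).length ≤ (i + 1) * w + o := by
        rw [hF]
        nlinarith [Nat.zero_le (i * w)]
      rw [List.getD_append_right _ _ _ _ h1, hF]
      have h2 : (i + 1) * w + o - w = i * w + o := by
        rw [Nat.add_mul, Nat.one_mul]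
        omega
      rw [h2, ih i o (by simpa using hi) ho]
      rfl

theorem inst_getD {n : ℕ} (A : List ℕ) {i o : ℕ} (hi : i < n) (ho : o < A.length + n) :
    (inst n A).getD (i * (A.length + n) + o) 0 =
      if o < A.length then 2 ^ (4 * (n * (A.length + n))) * A.getD o 0
      else if o - A.length = i then 2 ^ (2 * (n * (A.length + n))) else 0 := by
  unfold inst
  rw [flatMap_getD (w := A.length + n) (fun i => by simp) (List.range n) i o (by simpa using hi) ho]
  rw [List.getElem_range]
  split_ifs with h1 h2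
  · rw [List.getD_append _ _ _ _ (by simpa using h1), List.getD_eq_getElem?_getD,
      List.getElem?_map, List.getElem?_eq_getElem h1, List.getD_eq_getElem?_getD,
      List.getElem?_eq_getElem h1]
    rfl
  · rw [List.getD_append_right _ _ _ _ (by simpa using h1), List.length_map,
      List.getD_eq_getElem?_getD, List.getElem?_map, List.getElem?_range (by omega)]
    simp [h2]
  · rw [List.getD_append_right _ _ _ _ (by simpa using h1), List.length_map,
      List.getD_eq_getElem?_getD, List.getElem?_map, List.getElem?_range (by omega)]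
    simp [h2]

/-- Few sharings: the agents split in two groups without common objects. -/
theorem exists_group {n m : ℕ} (hn : 2 ≤ n) (z : Fin n → Fin m → ℝ) (hz : IsAlloc z)
    (hs : sharings z ≤ n - 2) :
    ∃ C : Finset (Fin n), C.Nonempty ∧ C ≠ Finset.univ ∧
      ∀ o, (∀ i, 0 < z i o → i ∈ C) ∨ (∀ i, 0 < z i o → i ∉ C) := by
  classical
  unfold sharings at hs
  obtain ⟨C, hC1, hC2, hC3⟩ := exists_closed (fun o => univ.filter fun i => 0 < z i o) (fun o => by
    by_contra hcon
    rw [not_nonempty_iff_eq_empty, filter_eq_empty_iff] at hcon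
    have h1 := hz.total o
    have h2 : ∑ i, z i o ≤ 0 := sum_nonpos fun i hi => not_lt.1 (hcon hi)
    linarith) (by omega)
  refine ⟨C, hC1, hC2, fun o => ?_⟩
  rcases hC3 o with h | h
  · left
    intro i hi
    exact h (mem_filter.2 ⟨mem_univ _, hi⟩)
  · right
    intro i hi hiC
    exact disjoint_left.1 h (mem_filter.2 ⟨mem_univ _, hi⟩) hiC

/-- completeness: allocation of the objects -/
theorem exists_alloc {k q m τ : ℕ} (hk : 1 ≤ k) (hq : 1 ≤ q) (hτ : 0 < τ) (a : Fin m → ℕ)
    (pr : Fin (k + q) → Fin m) (hpri : Function.Injective pr) (hpra : ∀ i, a (pr i) = 0)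
    (hpos : ∀ o, (∀ i, o ≠ pr i) → 0 < a o) (hT : ∑ o, a o = (k + q) * τ)
    (S : Finset (Fin m)) (hSp : ∀ o ∈ S, ∀ i, o ≠ pr i) (hS : ∑ o ∈ S, a o = k * τ) :
    ∃ z : Fin (k + q) → Fin m → ℝ, IsAlloc z ∧ (∀ i, z i (pr i) = 1) ∧
      (∀ j, ∑ o, (a o : ℝ) * z j o = τ) ∧ sharings z ≤ k + q - 2 := by
  classical
  obtain ⟨k, rfl⟩ : ∃ k', k = k' + 1 := ⟨k - 1, by omega⟩
  obtain ⟨q, rfl⟩ : ∃ q', q = q' + 1 := ⟨q - 1, by omega⟩
  set Q : Finset (Fin m) := univ.filter fun o => ∃ i, o = pr i with hQ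
  set R : Finset (Fin m) := univ.filter fun o => (∀ i, o ≠ pr i) ∧ o ∉ S with hR
  have hτR : (0 : ℝ) < τ := by exact_mod_cast hτ
  have hmemS : ∀ o ∈ S, 0 < (a o : ℝ) := fun o ho => by exact_mod_cast hpos o (hSp o ho)
  have hmemR : ∀ o ∈ R, 0 < (a o : ℝ) := fun o ho => by
    exact_mod_cast hpos o (mem_filter.1 ho).2.1
  -- splitting of sums
  have hsplit : ∀ f : Fin m → ℝ, ∑ o, f o = ∑ o ∈ Q, f o + (∑ o ∈ S, f o + ∑ o ∈ R, f o) := by
    intro f
    rw [← sum_union (disjoint_left.2 fun o h1 h2 => (mem_filter.1 h2).2.2 h1),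
      ← sum_union (disjoint_left.2 fun o h1 h2 => ?_)]
    · congr 1
      ext o
      simp only [mem_univ, mem_union, hQ, hR, mem_filter, true_and, true_iff]
      by_cases h : ∃ i, o = pr i
      · exact Or.inl h
      · push Not at h
        by_cases h' : o ∈ S
        · exact Or.inr (Or.inl h')
        · exact Or.inr (Or.inr ⟨h, h'⟩)
    · obtain ⟨i, hi⟩ := (mem_filter.1 h1).2
      rcases mem_union.1 h2 with h | h
      · exact hSp o h i hi
      · exact (mem_filter.1 h).2.1 i hi
  have hQ0 : ∑ o ∈ Q, (a o : ℝ) = 0 := sum_eq_zero fun o ho => by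
    obtain ⟨i, rfl⟩ := (mem_filter.1 ho).2
    rw [hpra]
    simp
  have hSR : ∑ o ∈ S, (a o : ℝ) = ((k : ℝ) + 1) * τ := by exact_mod_cast hS
  have hRR : ∑ o ∈ R, (a o : ℝ) = ((q : ℝ) + 1) * τ := by
    have h1 := hsplit (fun o => (a o : ℝ))
    have h2 : ∑ o, (a o : ℝ) = ((k : ℝ) + 1 + (q + 1)) * τ := by exact_mod_cast hT
    rw [h2, hQ0, hSR] at h1
    linarith
  obtain ⟨z₁, a1, a2, a3, a4⟩ := cutR hτR k S (fun o => (a o : ℝ)) hmemS hSR
  obtain ⟨z₂, b1, b2, b3, b4⟩ := cutR hτR q R (fun o => (a o : ℝ)) hmemR hRR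
  let z : Fin (k + 1 + (q + 1)) → Fin m → ℝ := fun i o =>
    if o ∈ Q then (if o = pr i then 1 else 0)
    else Fin.addCases (fun i => if o ∈ S then z₁ i o else 0) (fun i => if o ∈ S then 0 else z₂ i o) i
  have zQ : ∀ i, ∀ o ∈ Q, z i o = if o = pr i then 1 else 0 := fun i o ho => by
    simp only [z]; rw [if_pos ho]
  have zl : ∀ i : Fin (k + 1), ∀ o, o ∉ Q → z (Fin.castAdd (q + 1) i) o =
      if o ∈ S then z₁ i o else 0 := fun i o ho => by
    simp only [z]; rw [if_neg ho, Fin.addCases_left]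
  have zr : ∀ i : Fin (q + 1), ∀ o, o ∉ Q → z (Fin.natAdd (k + 1) i) o =
      if o ∈ S then 0 else z₂ i o := fun i o ho => by
    simp only [z]; rw [if_neg ho, Fin.addCases_right]
  have hSQ : ∀ o ∈ S, o ∉ Q := fun o ho h => by
    obtain ⟨i, hi⟩ := (mem_filter.1 h).2
    exact hSp o ho i hi
  have hRQ : ∀ o ∈ R, o ∉ Q ∧ o ∉ S := fun o ho => by
    refine ⟨fun h => ?_, (mem_filter.1 ho).2.2⟩
    obtain ⟨i, hi⟩ := (mem_filter.1 h).2
    exact (mem_filter.1 ho).2.1 i hi
  have hcase : ∀ o, o ∈ Q ∨ o ∈ S ∨ o ∈ R := by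
    intro o
    by_cases h : o ∈ Q
    · exact Or.inl h
    · by_cases h' : o ∈ S
      · exact Or.inr (Or.inl h')
      · refine Or.inr (Or.inr (mem_filter.2 ⟨mem_univ _, fun i hi => ?_, h'⟩))
        exact h (mem_filter.2 ⟨mem_univ _, i, hi⟩)
  have hz : IsAlloc z := by
    constructor
    · intro i o
      by_cases h : o ∈ Q
      · rw [zQ i o h]
        split_ifs <;> norm_num
      · refine Fin.addCases (fun i => ?_) (fun i => ?_) i
        · rw [zl i o h]
          split_ifs
          · exact a1 i o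
          · exact le_rfl
        · rw [zr i o h]
          split_ifs
          · exact le_rfl
          · exact b1 i o
    · intro o
      rcases hcase o with h | h | h
      · obtain ⟨j, hj⟩ := (mem_filter.1 h).2
        have h1 : ∀ i, z i o = if i = j then 1 else 0 := by
          intro i
          rw [zQ i o h]
          by_cases h2 : i = j
          · rw [if_pos h2, if_pos (by rw [hj, h2])]
          · rw [if_neg h2, if_neg (fun h3 => h2 (hpri (h3.symm.trans hj)))]
        simp_rw [h1]
        rw [sum_ite_eq', if_pos (mem_univ _)]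
      · rw [Fin.sum_univ_add]
        simp_rw [zl _ o (hSQ o h), zr _ o (hSQ o h), if_pos h]
        rw [a2 o h]
        simp
      · rw [Fin.sum_univ_add]
        simp_rw [zl _ o (hRQ o h).1, zr _ o (hRQ o h).1, if_neg (hRQ o h).2]
        rw [b2 o h]
        simp
  refine ⟨z, hz, fun i => ?_, fun j => ?_, ?_⟩
  · rw [zQ i _ (mem_filter.2 ⟨mem_univ _, i, rfl⟩), if_pos rfl]
  · rw [hsplit]
    have h0 : ∑ o ∈ Q, (a o : ℝ) * z j o = 0 := sum_eq_zero fun o ho => by
      obtain ⟨i, rfl⟩ := (mem_filter.1 ho).2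
      rw [hpra]
      simp
    rw [h0, zero_add]
    refine Fin.addCases (fun i => ?_) (fun i => ?_) j
    · have h1 : ∑ o ∈ S, (a o : ℝ) * z (Fin.castAdd (q + 1) i) o = τ := by
        rw [← a3 i]
        exact sum_congr rfl fun o ho => by rw [zl i o (hSQ o ho), if_pos ho]
      have h2 : ∑ o ∈ R, (a o : ℝ) * z (Fin.castAdd (q + 1) i) o = 0 :=
        sum_eq_zero fun o ho => by rw [zl i o (hRQ o ho).1, if_neg (hRQ o ho).2, mul_zero]
      rw [h1, h2, add_zero]
    · have h1 : ∑ o ∈ S, (a o : ℝ) * z (Fin.natAdd (k + 1) i) o = 0 :=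
        sum_eq_zero fun o ho => by rw [zr i o (hSQ o ho), if_pos ho, mul_zero]
      have h2 : ∑ o ∈ R, (a o : ℝ) * z (Fin.natAdd (k + 1) i) o = τ := by
        rw [← b3 i]
        exact sum_congr rfl fun o ho => by rw [zr i o (hRQ o ho).1, if_neg (hRQ o ho).2]
      rw [h1, h2, zero_add]
  · unfold sharings
    have hcard : ∀ o, (univ.filter fun j => 0 < z j o).card =
        (univ.filter fun j : Fin (k + 1) => 0 < z (Fin.castAdd (q + 1) j) o).card +
          (univ.filter fun j : Fin (q + 1) => 0 < z (Fin.natAdd (k + 1) j) o).card := by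
      intro o
      rw [card_filter, card_filter, card_filter, Fin.sum_univ_add]
    have hsplitN : ∀ f : Fin m → ℕ, ∑ o, f o = ∑ o ∈ Q, f o + (∑ o ∈ S, f o + ∑ o ∈ R, f o) := by
      intro f
      have := hsplit (fun o => (f o : ℝ))
      exact_mod_cast this
    rw [hsplitN]
    have h0 : ∑ o ∈ Q, ((univ.filter fun j => 0 < z j o).card - 1) = 0 := by
      refine sum_eq_zero fun o ho => ?_
      obtain ⟨j, hj⟩ := (mem_filter.1 ho).2
      have : (univ.filter fun i => 0 < z i o) ⊆ {j} := by
        intro i hi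
        rw [mem_filter, zQ i o ho] at hi
        by_cases h : o = pr i
        · rw [mem_singleton]
          exact hpri (h.symm.trans hj)
        · rw [if_neg h] at hi
          exact absurd hi.2 (lt_irrefl _)
      have := card_le_card this
      rw [card_singleton] at this
      omega
    have h1 : ∑ o ∈ S, ((univ.filter fun j => 0 < z j o).card - 1) ≤ k := by
      refine le_trans (le_of_eq (sum_congr rfl fun o ho => ?_)) a4
      rw [hcard]
      have e1 : (univ.filter fun j : Fin (q + 1) => 0 < z (Fin.natAdd (k + 1) j) o) = ∅ := by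
        rw [filter_eq_empty_iff]
        intro j _
        rw [zr j o (hSQ o ho), if_pos ho]
        exact lt_irrefl _
      have e2 : (univ.filter fun j : Fin (k + 1) => 0 < z (Fin.castAdd (q + 1) j) o) =
          univ.filter fun j => 0 < z₁ j o :=
        filter_congr fun j _ => by rw [zl j o (hSQ o ho), if_pos ho]
      rw [e1, e2, card_empty, add_zero]
    have h2 : ∑ o ∈ R, ((univ.filter fun j => 0 < z j o).card - 1) ≤ q := by
      refine le_trans (le_of_eq (sum_congr rfl fun o ho => ?_)) b4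
      rw [hcard]
      have e1 : (univ.filter fun j : Fin (k + 1) => 0 < z (Fin.castAdd (q + 1) j) o) = ∅ := by
        rw [filter_eq_empty_iff]
        intro j _
        rw [zl j o (hRQ o ho).1, if_neg (hRQ o ho).2]
        exact lt_irrefl _
      have e2 : (univ.filter fun j : Fin (q + 1) => 0 < z (Fin.natAdd (k + 1) j) o) =
          univ.filter fun j => 0 < z₂ j o :=
        filter_congr fun j _ => by rw [zr j o (hRQ o ho).1, if_neg (hRQ o ho).2]
      rw [e1, e2, card_empty, zero_add]
    rw [h0]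
    omega

theorem sum_getD (A : List ℕ) : ∑ o ∈ range A.length, A.getD o 0 = A.sum := by
  induction A with
  | nil => simp
  | cons x A ih =>
    rw [List.length_cons, sum_range_succ', List.sum_cons, ← ih, add_comm]
    simp

theorem sum_range_add {N n : ℕ} (f : ℕ → ℕ) (hf : ∀ o, N ≤ o → f o = 0) :
    ∑ o ∈ range (N + n), f o = ∑ o ∈ range N, f o := by
  refine (sum_subset (range_subset_range.2 (Nat.le_add_right N n)) fun o _ ho => hf o ?_).symm
  rw [mem_range] at ho
  omega

theorem exists_alloc' {n k m τ : ℕ} (hk : 1 ≤ k) (hkn : k < n) (hτ : 0 < τ) (a : Fin m → ℕ)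
    (pr : Fin n → Fin m) (hpri : Function.Injective pr) (hpra : ∀ i, a (pr i) = 0)
    (hpos : ∀ o, (∀ i, o ≠ pr i) → 0 < a o) (hT : ∑ o, a o = n * τ)
    (S : Finset (Fin m)) (hSp : ∀ o ∈ S, ∀ i, o ≠ pr i) (hS : ∑ o ∈ S, a o = k * τ) :
    ∃ z : Fin n → Fin m → ℝ, IsAlloc z ∧ (∀ i, z i (pr i) = 1) ∧
      (∀ j, ∑ o, (a o : ℝ) * z j o = τ) ∧ sharings z ≤ n - 2 := by
  obtain ⟨q, rfl⟩ : ∃ q, n = k + q := ⟨n - k, by omega⟩
  exact exists_alloc hk (by omega) hτ a pr hpri hpra hpos hT S hSp hS

theorem comb {n : ℕ} (hn : 3 ≤ n) (A : List ℕ) (hpos : ∀ a ∈ A, 0 < a) {τ : ℕ} (hτ : 0 < τ)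
    (hsum : A.sum = n * τ) (y : List ℕ) (hy : y.length = (inst n A).length)
    (hd : ∀ i, |((y.getD i 0 : ℕ) : ℤ) - ((inst n A).getD i 0 : ℕ)| ≤
      ((2 ^ (inst n A).length : ℕ) : ℤ)) :
    (PropSharings n (n - 2) y ↔ SubK n A τ) ∧ (EFSharings n (n - 2) y ↔ SubK n A τ) := by
  classical
  rw [inst_length] at hy hd
  set N := A.length with hN
  have hm : y.length / n = N + n := by
    rw [hy, Nat.mul_div_cancel_left _ (by omega)]
  unfold PropSharings EFSharings
  have hmat : ∀ i o, mat n y i o = y.getD (i.val * (y.length / n) + o.val) 0 := fun _ _ => rfl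
  revert hmat
  generalize mat n y = v'
  revert v'
  rw [hm]
  intro v' hmat
  set t := n * (N + n) with ht
  set K := 2 ^ (4 * t) with hK
  set β := 2 ^ (2 * t) with hβ
  let a : Fin (N + n) → ℕ := fun o => A.getD o.val 0
  let pr : Fin n → Fin (N + n) := fun i => ⟨N + i.val, by omega⟩
  let v : Fin n → Fin (N + n) → ℕ := fun i o => K * a o + if o = pr i then β else 0
  have hv : ∀ i o, v i o = K * a o + if o = pr i then β else 0 := fun _ _ => rfl
  have ha0 : ∀ o, N ≤ o → A.getD o 0 = 0 := fun o ho => List.getD_eq_default _ _ (by omega)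
  have hpri : Function.Injective pr := by
    intro i j h
    have := congrArg Fin.val h
    simp only [pr] at this
    exact Fin.ext (by omega)
  have hpra : ∀ i, a (pr i) = 0 := fun i => ha0 _ (Nat.le_add_right _ _)
  have hT : ∑ o, a o = n * τ := by
    rw [← hsum, ← sum_getD, ← sum_range_add (n := n) (fun o => A.getD o 0) ha0,
      Finset.sum_range]
  have hapos : ∀ o : Fin (N + n), (∀ i, o ≠ pr i) → 0 < a o := by
    intro o ho
    by_cases h : o.val < N
    · simp only [a]
      rw [List.getD_eq_getElem _ _ h]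
      exact hpos _ (List.getElem_mem h)
    · exfalso
      refine ho ⟨o.val - N, by omega⟩ (Fin.ext ?_)
      simp only [pr]
      omega
  have near : Near (2 ^ t) v v' := by
    intro i o
    have h1 := hd (i.val * (N + n) + o.val)
    rw [inst_getD A i.2 o.2, ← hN, ← ht, ← hK, ← hβ] at h1
    have h2 : (if o.val < N then K * A.getD o.val 0 else if o.val - N = i.val then β else 0) =
        v i o := by
      rw [hv]
      by_cases h : o.val < N
      · have : o ≠ pr i := fun h' => by
          have := congrArg Fin.val h'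
          simp only [pr] at this
          omega
        rw [if_pos h, if_neg this]
        rfl
      · rw [if_neg h]
        have h3 : a o = 0 := ha0 _ (by omega)
        rw [h3, mul_zero, zero_add]
        by_cases h4 : o.val - N = i.val
        · rw [if_pos h4, if_pos (Fin.ext (by simp only [pr]; omega))]
        · rw [if_neg h4, if_neg (fun h5 => h4 (by rw [h5]; simp only [pr]; omega))]
    rw [h2, ← hmat, abs_le] at h1
    constructor <;> [have := h1.1; have := h1.2] <;> push_cast at this <;> zify <;> linarith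
  have ht0 : N + n ≤ t := by
    rw [ht]
    nlinarith
  have hcβ : 2 * (N + n) * 2 ^ t ≤ β := by
    have h1 : 2 * (N + n) ≤ t := by
      rw [ht]
      nlinarith
    have h2 : t < 2 ^ t := Nat.lt_two_pow_self
    calc 2 * (N + n) * 2 ^ t ≤ 2 ^ t * 2 ^ t := Nat.mul_le_mul_right _ (by omega)
      _ = β := by rw [hβ, ← pow_add]; congr 1; omega
  have hcK : (n + 1) * β < K := by
    have h2 : t < 2 ^ t := Nat.lt_two_pow_self
    calc (n + 1) * β ≤ 2 ^ t * 2 ^ (2 * t) := Nat.mul_le_mul_right _ (by omega)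
      _ = 2 ^ (3 * t) := by rw [← pow_add]; congr 1; omega
      _ < K := Nat.pow_lt_pow_right (by norm_num) (by omega)
  -- soundness
  have snd : ∀ z : Fin n → Fin (N + n) → ℝ, IsAlloc z → IsProp v' z → sharings z ≤ n - 2 →
      SubK n A τ := by
    intro z hz hP hs
    obtain ⟨k, hk1, hk2, S, hS⟩ := core_no (by omega) v v' a K β (2 ^ t) τ pr hv hT hcβ hcK near
      hz hP hs
    refine ⟨k, hk1, by omega, fun o => decide (∃ h : o < N + n, (⟨o, h⟩ : Fin (N + n)) ∈ S), ?_⟩
    rw [← hS, ← hN, ← sum_range_add (n := n)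
      (fun o => if decide (∃ h : o < N + n, (⟨o, h⟩ : Fin (N + n)) ∈ S) = true then A.getD o 0
        else 0) (fun o ho => by simp only [ha0 o ho, ite_self]), Finset.sum_range,
      ← sum_filter]
    refine sum_congr ?_ fun _ _ => rfl
    ext o
    simp
  -- completeness
  have cmp : SubK n A τ → ∃ z : Fin n → Fin (N + n) → ℝ, IsAlloc z ∧ IsEF v' z ∧
      sharings z ≤ n - 2 := by
    rintro ⟨k, hk1, hk2, χ, hχ⟩
    have e1 : ∑ o ∈ range N, (if χ o = true then A.getD o 0 else 0) =
        ∑ o ∈ range (N + n), (if (o < N ∧ χ o = true) then A.getD o 0 else 0) := by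
      rw [sum_range_add (n := n) (fun o => if (o < N ∧ χ o = true) then A.getD o 0 else 0)
        (fun o ho => if_neg (by omega))]
      refine sum_congr rfl fun o ho => ?_
      rw [mem_range] at ho
      simp [ho]
    have hS : ∑ o ∈ univ.filter (fun o : Fin (N + n) => o.val < N ∧ χ o.val = true), a o =
        k * τ := by
      rw [← hχ, e1, Finset.sum_range, sum_filter]
    obtain ⟨z, hz, hpr, hTj, hs⟩ := exists_alloc' hk1 hk2 hτ a pr hpri hpra hapos hT _
      (fun o ho i h => by
        have h1 := (mem_filter.1 ho).2.1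
        rw [h] at h1
        simp only [pr] at h1
        omega) hS
    exact ⟨z, hz, ef_of_equal hv hcβ near hz hpr hTj, hs⟩
  refine ⟨⟨fun ⟨z, h1, h2, h3⟩ => snd z h1 h2 h3, fun h => ?_⟩,
    ⟨fun ⟨z, h1, h2, h3⟩ => snd z h1 (prop_of_ef h1 h2) h3, cmp⟩⟩
  obtain ⟨z, h1, h2, h3⟩ := cmp h
  exact ⟨z, h1, prop_of_ef h1 h2, h3⟩

end Pool.Agent.FairDiv
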