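import Mathlib

/-!
# Few sharings: a proper set of agents owns whole objects
-/

namespace Pool.Agent.FairDiv

open Finset

/-- If nonempty sets `A o ⊆ Fin n` satisfy `∑ (|A o| - 1) ≤ n - 2` then there is a nonempty proper
set `C` such that every `A o` is contained in `C` or disjoint from it. -/
theorem exists_closed {n : ℕ} {O : Type} [Fintype O] [DecidableEq O] (A : O → Finset (Fin n))
    (hA : ∀ o, (A o).Nonempty) (h : ∑ o, ((A o).card - 1) + 2 ≤ n) :
    ∃ C : Finset (Fin n), C.Nonempty ∧ C ≠ univ ∧ ∀ o, A o ⊆ C ∨ Disjoint (A o) C := by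
  classical
  choose c hc using hA
  let F : Finset (Sym2 (Fin n)) := univ.biUnion fun o => ((A o).erase (c o)).image fun i => s(c o, i)
  have hF : F.card ≤ ∑ o, ((A o).card - 1) := by
    refine card_biUnion_le.trans (sum_le_sum fun o _ => ?_)
    refine card_image_le.trans ?_
    rw [card_erase_of_mem (hc o)]
  let G : SimpleGraph (Fin n) := SimpleGraph.fromEdgeSet (F : Set (Sym2 (Fin n)))
  have hn : 0 < n := by omega
  have hG : ¬ G.Connected := by
    intro hcon
    have h1 := hcon.card_vert_le_card_edgeSet_add_one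
    have h2 : Nat.card G.edgeSet ≤ F.card := by
      have h3 : G.edgeSet ⊆ (F : Set (Sym2 (Fin n))) := by
        rw [SimpleGraph.edgeSet_fromEdgeSet]
        exact Set.sdiff_subset
      calc Nat.card G.edgeSet = G.edgeSet.ncard := Nat.card_coe_set_eq _
        _ ≤ (F : Set (Sym2 (Fin n))).ncard := Set.ncard_le_ncard h3 (finite_toSet F)
        _ = F.card := Set.ncard_coe_finset F
    rw [Nat.card_eq_fintype_card, Fintype.card_fin] at h1
    omega
  have hadj : ∀ o, ∀ i ∈ A o, G.Reachable (c o) i := by
    intro o i hi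
    by_cases hci : i = c o
    · subst hci; exact SimpleGraph.Reachable.refl _
    · refine SimpleGraph.Adj.reachable ?_
      rw [SimpleGraph.fromEdgeSet_adj]
      refine ⟨?_, fun h => hci h.symm⟩
      rw [mem_coe, mem_biUnion]
      exact ⟨o, mem_univ _, mem_image.2 ⟨i, mem_erase.2 ⟨hci, hi⟩, rfl⟩⟩
  have hex : ∃ u w, ¬ G.Reachable u w := by
    by_contra hcon
    push Not at hcon
    have : Nonempty (Fin n) := ⟨⟨0, hn⟩⟩
    exact hG ⟨hcon⟩
  obtain ⟨u, w, huw⟩ := hex
  refine ⟨univ.filter fun i => G.Reachable u i, ⟨u, ?_⟩, ?_, fun o => ?_⟩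
  · simp
  · intro h1
    have : w ∈ univ.filter fun i => G.Reachable u i := by rw [h1]; exact mem_univ _
    rw [mem_filter] at this
    exact huw this.2
  · by_cases h1 : G.Reachable u (c o)
    · left
      intro i hi
      rw [mem_filter]
      exact ⟨mem_univ _, h1.trans (hadj o i hi)⟩
    · right
      rw [disjoint_left]
      intro i hi hi2
      rw [mem_filter] at hi2
      exact h1 (hi2.2.trans (hadj o i hi).symm)

end Pool.Agent.FairDiv
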