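import Pool.Agent.Lib_MP_42f051_lc.Defs
import Pool.Agent.Lib_MP_42f051_lc.Cut

/-!
# Soundness: a proportional allocation with at most `n - 2` sharings gives an exact subset sum
-/

namespace Pool.Agent.FairDiv

open Finset

variable {n m : ℕ}

/-- the distance of `v` and `v'` in the maximum norm is at most `r` -/
def Near (r : ℕ) (v v' : Fin n → Fin m → ℕ) : Prop :=
  ∀ i o, v i o ≤ v' i o + r ∧ v' i o ≤ v i o + r

/-- the value of the whole for an agent -/
theorem total_lower {v v' : Fin n → Fin m → ℕ} {a : Fin m → ℕ} {K β g T : ℕ} {pr : Fin n → Fin m}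
    (hv : ∀ i o, v i o = K * a o + if o = pr i then β else 0) (hT : ∑ o, a o = n * T)
    (near : Near g v v') (i : Fin n) :
    (K : ℝ) * (n * T) + β ≤ ∑ o, (v' i o : ℝ) + m * g := by
  have h1 : ∑ o, v i o = K * (n * T) + β := by
    simp_rw [hv]
    rw [sum_add_distrib, ← mul_sum, hT, sum_ite_eq']
    simp
  have h2 : ∑ o, v i o ≤ ∑ o, v' i o + m * g := by
    calc ∑ o, v i o ≤ ∑ o, (v' i o + g) := sum_le_sum fun o _ => (near i o).1
      _ = ∑ o, v' i o + m * g := by
        rw [sum_add_distrib, sum_const, card_univ, smul_eq_mul, Fintype.card_fin]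
  rw [h1] at h2
  exact_mod_cast h2

/-- a closed set of agents gets at least its share -/
theorem half (v v' : Fin n → Fin m → ℕ) (a : Fin m → ℕ) (K β g T : ℕ) (pr : Fin n → Fin m)
    (hv : ∀ i o, v i o = K * a o + if o = pr i then β else 0) (hT : ∑ o, a o = n * T)
    (hβ : 2 * m * g ≤ β) (hK : (n + 1) * β < K) (near : Near g v v')
    (z : Fin n → Fin m → ℝ) (hz : IsAlloc z) (hP : IsProp v' z) (C : Finset (Fin n)) (S : Finset (Fin m))
    (hC : C.card + 1 ≤ n) (h1 : ∀ o ∈ S, ∀ i, i ∉ C → z i o = 0)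
    (h2 : ∀ o, o ∉ S → ∀ i ∈ C, z i o = 0) : C.card * T ≤ ∑ o ∈ S, a o := by
  have hn : 0 < n := by omega
  have hnR : (0 : ℝ) < n := by exact_mod_cast hn
  -- column sums over `C`
  have hcol : ∀ o, ∑ i ∈ C, z i o = if o ∈ S then 1 else 0 := by
    intro o
    by_cases ho : o ∈ S
    · rw [if_pos ho, ← hz.total o]
      refine sum_subset (subset_univ _) fun i _ hi => h1 o ho i hi
    · rw [if_neg ho]
      exact sum_eq_zero fun i hi => h2 o ho i hi
  have hle1 : ∀ i o, z i o ≤ 1 := by
    intro i o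
    rw [← hz.total o]
    exact single_le_sum (f := fun i => z i o) (fun i _ => hz.nonneg i o) (mem_univ i)
  -- upper bound
  have hup : ∑ i ∈ C, val v' z i i ≤ K * ∑ o ∈ S, (a o : ℝ) + C.card * β + m * g := by
    have e1 : ∀ i, val v' z i i ≤
        ∑ o, ((K : ℝ) * a o * z i o) + β * z i (pr i) + ∑ o, (g : ℝ) * z i o := by
      intro i
      have e2 : ∑ o, (if o = pr i then (β : ℝ) else 0) * z i o = β * z i (pr i) := by
        simp_rw [ite_mul, zero_mul]
        rw [sum_ite_eq']
        simp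
      rw [← e2, ← sum_add_distrib, ← sum_add_distrib]
      refine sum_le_sum fun o _ => ?_
      have e3 := (near i o).2
      rw [hv] at e3
      have e4 : (v' i o : ℝ) ≤ K * a o + (if o = pr i then (β : ℝ) else 0) + g := by
        split_ifs at e3 ⊢ <;> exact_mod_cast e3
      calc (v' i o : ℝ) * z i o ≤ (K * a o + (if o = pr i then (β : ℝ) else 0) + g) * z i o :=
            mul_le_mul_of_nonneg_right e4 (hz.nonneg i o)
        _ = _ := by ring
    refine (sum_le_sum fun i _ => e1 i).trans ?_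
    rw [sum_add_distrib, sum_add_distrib]
    have e5 : ∑ i ∈ C, ∑ o, ((K : ℝ) * a o * z i o) = K * ∑ o ∈ S, (a o : ℝ) := by
      rw [sum_comm]
      simp_rw [← mul_sum, hcol]
      simp_rw [mul_ite, mul_one, mul_zero]
      rw [sum_ite_mem, univ_inter, mul_sum]
    have e6 : ∑ i ∈ C, (β : ℝ) * z i (pr i) ≤ C.card * β := by
      calc ∑ i ∈ C, (β : ℝ) * z i (pr i) ≤ ∑ i ∈ C, (β : ℝ) := sum_le_sum fun i _ =>
            mul_le_of_le_one_right (Nat.cast_nonneg _) (hle1 _ _)
        _ = C.card * β := by rw [sum_const, nsmul_eq_mul]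
    have e7 : ∑ i ∈ C, ∑ o, (g : ℝ) * z i o ≤ m * g := by
      rw [sum_comm]
      calc ∑ o, ∑ i ∈ C, (g : ℝ) * z i o ≤ ∑ _o : Fin m, (g : ℝ) := by
            refine sum_le_sum fun o _ => ?_
            rw [← mul_sum, hcol]
            split_ifs
            · rw [mul_one]
            · rw [mul_zero]; exact Nat.cast_nonneg _
        _ = m * g := by rw [sum_const, nsmul_eq_mul, card_univ, Fintype.card_fin]
    rw [e5]
    linarith
  -- lower bound
  have hlow : (C.card : ℝ) * (K * T) - m * g ≤ ∑ i ∈ C, val v' z i i := by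
    have e1 : ∀ i, (K : ℝ) * T - m * g / n ≤ val v' z i i := by
      intro i
      refine le_trans ?_ (hP i)
      rw [le_div_iff₀ hnR]
      have e2 := total_lower hv hT near i
      have e3 : ((K : ℝ) * T - m * g / n) * n = K * (n * T) - m * g := by
        field_simp
      rw [e3]
      have : (0 : ℝ) ≤ β := Nat.cast_nonneg _
      linarith
    calc (C.card : ℝ) * (K * T) - m * g ≤ C.card * (K * T - m * g / n) := by
          have e4 : (C.card : ℝ) * (m * g / n) ≤ m * g := by
            have e5 : (C.card : ℝ) ≤ n := by exact_mod_cast (by omega : C.card ≤ n)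
            have e6 : (0 : ℝ) ≤ m * g / n := by positivity
            calc (C.card : ℝ) * (m * g / n) ≤ n * (m * g / n) :=
                  mul_le_mul_of_nonneg_right e5 e6
              _ = m * g := by field_simp
          linarith
      _ = ∑ i ∈ C, ((K : ℝ) * T - m * g / n) := by rw [sum_const, nsmul_eq_mul]
      _ ≤ _ := sum_le_sum fun i _ => e1 i
  -- conclusion
  have hβR : (2 : ℝ) * m * g ≤ β := by exact_mod_cast hβ
  have hKR : ((n : ℝ) + 1) * β < K := by exact_mod_cast hK
  have hCR : (C.card : ℝ) + 1 ≤ n := by exact_mod_cast hC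
  have hβ0 : (0 : ℝ) ≤ β := Nat.cast_nonneg _
  have hfin : (K : ℝ) * (C.card * T) < K * (∑ o ∈ S, (a o : ℝ) + 1) := by
    have e8 : ((C.card : ℝ) + 1) * β ≤ n * β := mul_le_mul_of_nonneg_right hCR hβ0
    nlinarith [hup, hlow]
  have hK0 : (0 : ℝ) < K := lt_of_le_of_lt (by positivity) hKR
  have hfin2 := lt_of_mul_lt_mul_left hfin hK0.le
  have hfin3 : C.card * T < ∑ o ∈ S, a o + 1 := by exact_mod_cast hfin2
  omega

/-- **Soundness.** -/
theorem core_no (hn : 2 ≤ n) (v v' : Fin n → Fin m → ℕ) (a : Fin m → ℕ) (K β g T : ℕ) (pr : Fin n → Fin m)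
    (hv : ∀ i o, v i o = K * a o + if o = pr i then β else 0) (hT : ∑ o, a o = n * T)
    (hβ : 2 * m * g ≤ β) (hK : (n + 1) * β < K) (near : Near g v v')
    {z : Fin n → Fin m → ℝ} (hz : IsAlloc z) (hP : IsProp v' z) (hs : sharings z ≤ n - 2) :
    ∃ k, 1 ≤ k ∧ k + 1 ≤ n ∧ ∃ S : Finset (Fin m), ∑ o ∈ S, a o = k * T := by
  classical
  unfold sharings at hs
  obtain ⟨C, hC1, hC2, hC3⟩ := exists_closed (fun o => univ.filter fun i => 0 < z i o) (fun o => by
    by_contra hcon
    rw [not_nonempty_iff_eq_empty, filter_eq_empty_iff] at hcon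
    have h1 := hz.total o
    have h2 : ∑ i, z i o ≤ 0 := sum_nonpos fun i _ => not_lt.1 (hcon (mem_univ i))
    linarith) (by omega)
  have hzero : ∀ i o, ¬ 0 < z i o → z i o = 0 := fun i o h => le_antisymm (not_lt.1 h) (hz.nonneg i o)
  have hcard1 : 1 ≤ C.card := card_pos.2 hC1
  have hcard2 : C.card + 1 ≤ n := by
    have := card_lt_univ_of_notMem (s := C) (x := Classical.choose (not_forall.1 (fun h => hC2 (eq_univ_iff_forall.2 h))))
      (Classical.choose_spec (not_forall.1 (fun h => hC2 (eq_univ_iff_forall.2 h))))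
    rw [Fintype.card_fin] at this
    omega
  set S : Finset (Fin m) := univ.filter fun o => (univ.filter fun i => 0 < z i o) ⊆ C with hS
  have g1 : ∀ o ∈ S, ∀ i, i ∉ C → z i o = 0 := by
    intro o ho i hi
    refine hzero i o fun hpos => hi ?_
    rw [hS, mem_filter] at ho
    exact ho.2 (mem_filter.2 ⟨mem_univ _, hpos⟩)
  have g2 : ∀ o, o ∉ S → ∀ i ∈ C, z i o = 0 := by
    intro o ho i hi
    refine hzero i o fun hpos => ?_
    rcases hC3 o with h1 | h1
    · exact ho (by rw [hS, mem_filter]; exact ⟨mem_univ _, h1⟩)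
    · exact disjoint_left.1 h1 (mem_filter.2 ⟨mem_univ _, hpos⟩) hi
  have r1 := half v v' a K β g T pr hv hT hβ hK near z hz hP C S hcard2 g1 g2
  have hcompl : Cᶜ.card = n - C.card := by rw [card_compl, Fintype.card_fin]
  have r2 := half v v' a K β g T pr hv hT hβ hK near z hz hP Cᶜ Sᶜ (by omega)
    (fun o ho i hi => g2 o (mem_compl.1 ho) i (by simpa using hi))
    (fun o ho i hi => g1 o (by simpa using ho) i (mem_compl.1 hi))
  refine ⟨C.card, hcard1, hcard2, S, le_antisymm ?_ r1⟩
  have r3 : ∑ o ∈ S, a o + ∑ o ∈ Sᶜ, a o = n * T := by rw [sum_add_sum_compl, hT]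
  rw [hcompl, Nat.sub_mul] at r2
  have r4 : C.card * T ≤ n * T := Nat.mul_le_mul_right _ (by omega)
  omega

end Pool.Agent.FairDiv
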