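import Pool.Agent.Lib_MP_42f051_lc.CoreNo

/-!
# Completeness: an exact subset sum gives an envy-free allocation with `n - 2` sharings
-/

namespace Pool.Agent.FairDiv

open Finset

variable {n m : ℕ}

/-- envy-free allocations are proportional -/
theorem prop_of_ef {v : Fin n → Fin m → ℕ} {z : Fin n → Fin m → ℝ} (hz : IsAlloc z) (h : IsEF v z) :
    IsProp v z := by
  intro i
  have hn : 0 < n := i.pos
  have hnR : (0 : ℝ) < n := by exact_mod_cast hn
  rw [div_le_iff₀ hnR]
  have h1 : ∑ j, val v z i j = ∑ o, (v i o : ℝ) := by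
    unfold val
    rw [sum_comm]
    refine sum_congr rfl fun o _ => ?_
    rw [← mul_sum, hz.total, mul_one]
  rw [← h1]
  calc ∑ j, val v z i j ≤ ∑ _j : Fin n, val v z i i := sum_le_sum fun j _ => h i j
    _ = val v z i i * n := by
      rw [sum_const, card_univ, Fintype.card_fin, nsmul_eq_mul, mul_comm]

/-- an allocation in which every bundle has the same value for `a` and every agent gets its
private object is envy-free, also after small perturbations -/
theorem ef_of_equal {v v' : Fin n → Fin m → ℕ} {a : Fin m → ℕ} {K β g T : ℕ} {pr : Fin n → Fin m}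
    (hv : ∀ i o, v i o = K * a o + if o = pr i then β else 0)
    (hβ : 2 * m * g ≤ β) (near : Near g v v') {z : Fin n → Fin m → ℝ} (hz : IsAlloc z)
    (hpr : ∀ i, z i (pr i) = 1) (hT : ∀ j, ∑ o, (a o : ℝ) * z j o = T) : IsEF v' z := by
  have hle1 : ∀ i o, z i o ≤ 1 := by
    intro i o
    rw [← hz.total o]
    exact single_le_sum (f := fun i => z i o) (fun i _ => hz.nonneg i o) (mem_univ i)
  have hsum : ∀ j, ∑ o, z j o ≤ m := by
    intro j
    calc ∑ o, z j o ≤ ∑ _o : Fin m, (1 : ℝ) := sum_le_sum fun o _ => hle1 j o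
      _ = m := by rw [sum_const, card_univ, nsmul_eq_mul, mul_one, Fintype.card_fin]
  have hexact : ∀ i j, ∑ o, (v i o : ℝ) * z j o = K * T + β * z j (pr i) := by
    intro i j
    rw [← hT j, mul_sum]
    have e2 : ∑ o, (if o = pr i then (β : ℝ) else 0) * z j o = β * z j (pr i) := by
      simp_rw [ite_mul, zero_mul]
      rw [sum_ite_eq']
      simp
    rw [← e2, ← sum_add_distrib]
    refine sum_congr rfl fun o _ => ?_
    rw [hv]
    split_ifs <;> push_cast <;> ring
  have hup : ∀ i j, val v' z i j ≤ K * T + β * z j (pr i) + g * m := by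
    intro i j
    calc val v' z i j ≤ ∑ o, ((v i o : ℝ) * z j o + g * z j o) := by
          refine sum_le_sum fun o _ => ?_
          rw [← add_mul]
          refine mul_le_mul_of_nonneg_right ?_ (hz.nonneg j o)
          exact_mod_cast (near i o).2
      _ = K * T + β * z j (pr i) + g * ∑ o, z j o := by
          rw [sum_add_distrib, hexact, ← mul_sum]
      _ ≤ _ := by
          have := mul_le_mul_of_nonneg_left (hsum j) (Nat.cast_nonneg (α := ℝ) g)
          linarith
  have hlow : ∀ i j, K * T + β * z j (pr i) - g * m ≤ val v' z i j := by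
    intro i j
    have h1 : ∑ o, (v i o : ℝ) * z j o ≤ val v' z i j + g * ∑ o, z j o := by
      unfold val
      rw [mul_sum, ← sum_add_distrib]
      refine sum_le_sum fun o _ => ?_
      rw [← add_mul]
      refine mul_le_mul_of_nonneg_right ?_ (hz.nonneg j o)
      exact_mod_cast (near i o).1
    rw [hexact] at h1
    have := mul_le_mul_of_nonneg_left (hsum j) (Nat.cast_nonneg (α := ℝ) g)
    linarith
  have hβR : (2 : ℝ) * m * g ≤ β := by exact_mod_cast hβ
  intro i j
  by_cases hij : j = i
  · rw [hij]
  · have h0 : z j (pr i) = 0 := by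
      have h1 := hz.total (pr i)
      have h2 : z i (pr i) + z j (pr i) ≤ ∑ k, z k (pr i) := by
        rw [← sum_pair (f := fun k => z k (pr i)) (fun h => hij h.symm)]
        exact sum_le_sum_of_subset_of_nonneg (subset_univ _) fun k _ _ => hz.nonneg k _
      have h3 := hz.nonneg j (pr i)
      rw [hpr] at h2
      linarith
    have h1 := hup i j
    have h2 := hlow i i
    rw [h0] at h1
    rw [hpr] at h2
    linarith

end Pool.Agent.FairDiv
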