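import Pool.Agent.Lib_MP_42f051_lc.DigDefs
import Pool.Agent.Lib_MP_638f75_lc.REd

/-!
# The weights have a subset with the sum `k τ` iff the clauses are not-all-equal satisfiable
-/

namespace Pool.Agent.FairDiv

open Pool.Agent.RAC Pool.Agent.Lib_MP_8cd8c6_lc

variable {ν : Type} [DecidableEq ν] [Inhabited ν]

theorem digs_length (n : ℕ) (I : List (Trip ν)) : (digs n I).length = 7 * I.length + 2 := by
  simp only [digs, List.length_append, List.length_map, List.length_range, List.length_cons,
    List.length_nil]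
  omega

theorem dig_length (n : ℕ) (I : List (Trip ν)) : ∀ ds ∈ digs n I, ds.length = 4 * I.length + 1 := by
  intro ds hds
  simp only [digs, List.mem_append, List.mem_map, List.mem_range, List.mem_cons,
    List.not_mem_nil, or_false] at hds
  rcases hds with ⟨i, -, rfl⟩ | ⟨i, -, rfl⟩ | ⟨l, -, rfl⟩ | rfl | rfl
  all_goals
    simp only [dT, dS, dF, dE, List.length_append, List.length_map, List.length_range,
      List.length_cons, List.length_nil]
    omega

/-- `3, 2 (n - 2), n - 1 < 2 ^ n` for `n ≥ 3` -/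
theorem dig_lt {n : ℕ} (hn : 3 ≤ n) (I : List (Trip ν)) : ∀ ds ∈ digs n I, ∀ d ∈ ds, d < 2 ^ n := by
  have h1 : n - 1 < 2 ^ (n - 1) := Nat.lt_two_pow_self
  have h2 : 2 ^ n = 2 * 2 ^ (n - 1) := by
    obtain ⟨k, rfl⟩ : ∃ k, n = k + 1 := ⟨n - 1, by omega⟩
    rw [Nat.add_sub_cancel, pow_succ]
    ring
  have h3 : 2 ^ 3 ≤ 2 ^ n := Nat.pow_le_pow_right (by norm_num) hn
  intro ds hds d hd
  simp only [digs, List.mem_append, List.mem_map, List.mem_range, List.mem_cons,
    List.not_mem_nil, or_false] at hds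
  rcases hds with ⟨i, -, rfl⟩ | ⟨i, -, rfl⟩ | ⟨l, -, rfl⟩ | rfl | rfl
  · simp only [dT, List.mem_append, List.mem_map, List.mem_range, List.mem_cons,
      List.not_mem_nil, or_false] at hd
    rcases hd with ⟨p, -, rfl⟩ | ⟨l, -, rfl⟩ | rfl
    · split_ifs <;> omega
    · split_ifs <;> omega
    · omega
  · simp only [dT, List.mem_append, List.mem_map, List.mem_range, List.mem_cons,
      List.not_mem_nil, or_false] at hd
    rcases hd with ⟨p, -, rfl⟩ | ⟨l, -, rfl⟩ | rfl
    · split_ifs <;> omega
    · split_ifs <;> omega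
    · omega
  · simp only [dS, List.mem_append, List.mem_map, List.mem_range, List.mem_cons,
      List.not_mem_nil, or_false] at hd
    rcases hd with ⟨p, -, rfl⟩ | ⟨l, -, rfl⟩ | rfl
    · omega
    · split_ifs <;> omega
    · omega
  · simp only [dF, List.mem_append, List.mem_map, List.mem_range, List.mem_cons,
      List.not_mem_nil, or_false] at hd
    rcases hd with ⟨p, -, rfl⟩ | ⟨l, -, rfl⟩ | rfl <;> omega
  · simp only [dE, List.mem_append, List.mem_map, List.mem_range, List.mem_cons,
      List.not_mem_nil, or_false] at hd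
    rcases hd with ⟨p, -, rfl⟩ | ⟨l, -, rfl⟩ | rfl <;> omega

omit [DecidableEq ν] [Inhabited ν] in
private theorem dig_pos_aux (b : ℕ) (hb : 0 < b) : ∀ ds : List ℕ, (∃ d ∈ ds, 0 < d) →
    0 < Nat.ofDigits b ds := by
  intro ds
  induction ds with
  | nil => rintro ⟨d, hd, -⟩; exact absurd hd List.not_mem_nil
  | cons a ds ih =>
    rintro ⟨d, hd, hpos⟩
    rw [Nat.ofDigits_cons]
    rcases List.mem_cons.1 hd with rfl | hd
    · exact Nat.add_pos_left hpos _
    · exact Nat.add_pos_right _ (Nat.mul_pos hb (ih ⟨d, hd, hpos⟩))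

/-- every weight has a non-zero digit -/
theorem nums_pos {n : ℕ} (hn : 3 ≤ n) (I : List (Trip ν)) : ∀ a ∈ nums n I, 0 < a := by
  intro a ha
  obtain ⟨ds, hds, rfl⟩ := List.mem_map.1 ha
  refine dig_pos_aux _ (by positivity) ds ?_
  simp only [digs, List.mem_append, List.mem_map, List.mem_range, List.mem_cons,
    List.not_mem_nil, or_false] at hds
  rcases hds with ⟨i, hi, rfl⟩ | ⟨i, hi, rfl⟩ | ⟨l, hl, rfl⟩ | rfl | rfl
  · refine ⟨1, ?_, one_pos⟩
    simp only [dT, List.mem_append, List.mem_map, List.mem_range]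
    exact Or.inl ⟨i, hi, by simp⟩
  · refine ⟨1, ?_, one_pos⟩
    simp only [dT, List.mem_append, List.mem_map, List.mem_range]
    exact Or.inl ⟨i, hi, by simp⟩
  · refine ⟨1, ?_, one_pos⟩
    simp only [dS, List.mem_append, List.mem_map, List.mem_range]
    exact Or.inr (Or.inl ⟨l, hl, by simp⟩)
  · exact ⟨1, by simp [dF], one_pos⟩
  · exact ⟨n - 1, by simp [dE], by omega⟩

theorem tau_pos (n m : ℕ) : 0 < tau n m := by
  exact dig_pos_aux _ (by positivity) _ ⟨1, by simp [dTau], one_pos⟩

/-- `clN_iff` of `Lib_MP_638f75_lc/REd.lean` -/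
theorem cn_iff (I : List (Trip ν)) (l : Fin I.length) (i : Fin (3 * I.length)) (h : Fin 3)
    (s : Bool) : cn I l.val i.val h s = true ↔ (dat I).idx l h = i ∧ (dat I).sg l h = s := by
  rw [cn, clN_iff]
  have hst : (dat I).st l h = 2 * (3 * l.val + h.val) + (if (dat I).sg l h then 1 else 0) := rfl
  rw [hst]
  have key : (2 * (3 * l.val + h.val) + (if s then 1 else 0) =
      2 * (3 * l.val + h.val) + (if (dat I).sg l h then 1 else 0)) ↔ (dat I).sg l h = s := by
    cases s <;> cases (dat I).sg l h <;> simp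
  rw [key]

private theorem dig_sum (P : ℕ) (f : ℕ → ℕ) :
    ((List.range P).map f).sum = ∑ p ∈ Finset.range P, f p := by
  induction P with
  | zero => simp
  | succ P ih =>
    rw [List.range_succ, List.map_append, List.sum_append, ih, Finset.sum_range_succ]
    simp

private theorem dig_od (b P : ℕ) (f : ℕ → ℕ) :
    Nat.ofDigits b ((List.range P).map f) = ∑ p ∈ Finset.range P, f p * b ^ p := by
  induction P with
  | zero => simp
  | succ P ih =>
    rw [List.range_succ, List.map_append, Nat.ofDigits_append, ih, Finset.sum_range_succ]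
    simp [mul_comm]

/-- the number with given digits -/
private def Phi (b m : ℕ) (f g : ℕ → ℕ) (c : ℕ) : ℕ :=
  ∑ p ∈ Finset.range (3 * m), f p * b ^ p +
    b ^ (3 * m) * (∑ l ∈ Finset.range m, g l * b ^ l + b ^ m * c)

private theorem phi_od (b m : ℕ) (f g : ℕ → ℕ) (c : ℕ) :
    Nat.ofDigits b ((List.range (3 * m)).map f ++ ((List.range m).map g ++ [c])) =
      Phi b m f g c := by
  rw [Nat.ofDigits_append, Nat.ofDigits_append, dig_od, dig_od]
  simp [Phi]

private theorem phi_add (b m : ℕ) (f g f' g' : ℕ → ℕ) (c c' : ℕ) :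
    Phi b m f g c + Phi b m f' g' c' =
      Phi b m (fun p => f p + f' p) (fun l => g l + g' l) (c + c') := by
  simp only [Phi, add_mul, Finset.sum_add_distrib, mul_add]
  ring

private theorem phi_sum (b m : ℕ) (s : Finset ℕ) (f g : ℕ → ℕ → ℕ) (c : ℕ → ℕ) :
    ∑ i ∈ s, Phi b m (f i) (g i) (c i) =
      Phi b m (fun p => ∑ i ∈ s, f i p) (fun l => ∑ i ∈ s, g i l) (∑ i ∈ s, c i) := by
  induction s using Finset.induction_on with
  | empty => simp [Phi]
  | insert a s ha ih =>
    rw [Finset.sum_insert ha, ih, phi_add]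
    simp only [Finset.sum_insert ha]

private theorem phi_congr (b m : ℕ) (f g f' g' : ℕ → ℕ) (c c' : ℕ)
    (h1 : ∀ p < 3 * m, f p = f' p) (h2 : ∀ l < m, g l = g' l) (h3 : c = c') :
    Phi b m f g c = Phi b m f' g' c' := by
  have e1 : ∑ p ∈ Finset.range (3 * m), f p * b ^ p = ∑ p ∈ Finset.range (3 * m), f' p * b ^ p :=
    Finset.sum_congr rfl fun p hp => by rw [h1 p (Finset.mem_range.1 hp)]
  have e2 : ∑ l ∈ Finset.range m, g l * b ^ l = ∑ l ∈ Finset.range m, g' l * b ^ l :=
    Finset.sum_congr rfl fun l hl => by rw [h2 l (Finset.mem_range.1 hl)]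
  unfold Phi
  rw [h3, e1, e2]

private theorem phi_mul (b m n : ℕ) (f g : ℕ → ℕ) (c : ℕ) :
    n * Phi b m f g c = Phi b m (fun p => n * f p) (fun l => n * g l) (n * c) := by
  unfold Phi
  simp only [mul_add, Finset.mul_sum]
  congr 1
  · exact Finset.sum_congr rfl fun p _ => by ring
  · congr 1
    · exact Finset.sum_congr rfl fun p _ => by ring
    · ring

/-- every literal of a clause counts exactly once -/
private theorem cn_count (I : List (Trip ν)) (l : Fin I.length) (h : Fin 3) :
    ∑ i ∈ Finset.range (3 * I.length), ((if cn I l.val i h true then 1 else 0) +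
      (if cn I l.val i h false then 1 else 0)) = 1 := by
  have hidx : ((dat I).idx l h).val < 3 * I.length := ((dat I).idx l h).2
  have key : ∀ i ∈ Finset.range (3 * I.length), ((if cn I l.val i h true then 1 else 0) +
      (if cn I l.val i h false then 1 else 0)) =
      if ((dat I).idx l h).val = i then 1 else 0 := by
    intro i hi
    have hi' : i < 3 * I.length := Finset.mem_range.1 hi
    have h3 : (dat I).idx l h = ⟨i, hi'⟩ ↔ ((dat I).idx l h).val = i := Fin.ext_iff
    have h1 : cn I l.val i h true = true ↔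
        ((dat I).idx l h).val = i ∧ (dat I).sg l h = true :=
      (cn_iff I l ⟨i, hi'⟩ h true).trans (and_congr h3 Iff.rfl)
    have h2 : cn I l.val i h false = true ↔
        ((dat I).idx l h).val = i ∧ (dat I).sg l h = false :=
      (cn_iff I l ⟨i, hi'⟩ h false).trans (and_congr h3 Iff.rfl)
    by_cases e : ((dat I).idx l h).val = i
    · rw [if_pos e]
      cases hs : (dat I).sg l h with
      | true =>
        rw [if_pos (h1.2 ⟨e, hs⟩), if_neg (fun h4 => by
          have := (h2.1 h4).2
          rw [hs] at this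
          exact absurd this (by simp))]
      | false =>
        rw [if_neg (fun h4 => by
          have := (h1.1 h4).2
          rw [hs] at this
          exact absurd this (by simp)), if_pos (h2.2 ⟨e, hs⟩)]
    · rw [if_neg e, if_neg (fun h4 => e (h1.1 h4).1), if_neg (fun h4 => e (h2.1 h4).1)]
  rw [Finset.sum_congr rfl key, Finset.sum_ite_eq]
  rw [if_pos (Finset.mem_range.2 hidx)]

/-- Digit by digit: variable digit: `1 + 1 + (n - 2) = n`; clause digit: `3 + 1 + 2 (n - 2) = 2 n` (every
literal of the clause counts once, `cn_iff`); top digit `1 + (n - 1) = n`. -/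
theorem nums_sum {n : ℕ} (hn : 3 ≤ n) (I : List (Trip ν)) :
    (nums n I).sum = n * tau n I.length := by
  have hnum : (nums n I).sum =
      ∑ i ∈ Finset.range (3 * I.length), Nat.ofDigits (2 ^ n) (dT I true i) +
      (∑ i ∈ Finset.range (3 * I.length), Nat.ofDigits (2 ^ n) (dT I false i) +
      (∑ l ∈ Finset.range I.length, Nat.ofDigits (2 ^ n) (dS I.length l) +
      (Nat.ofDigits (2 ^ n) (dF I.length) + Nat.ofDigits (2 ^ n) (dE n I.length)))) := by
    simp only [nums, digs, List.map_append, List.map_map, List.sum_append, List.map_cons,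
      List.map_nil, List.sum_cons, List.sum_nil, add_zero]
    rw [dig_sum, dig_sum, dig_sum]
    rfl
  rw [hnum]
  simp only [dT, dS, dF, dE, tau, dTau, phi_od]
  rw [phi_sum, phi_sum, phi_sum, phi_add, phi_add, phi_add, phi_add, phi_mul]
  apply phi_congr
  · intro p hp
    have h1 : ∑ i ∈ Finset.range (3 * I.length), (if decide (p = i) then 1 else 0) = 1 := by
      simp only [decide_eq_true_eq]
      rw [Finset.sum_ite_eq, if_pos (Finset.mem_range.2 hp)]
    rw [h1]
    simp only [Finset.sum_const_zero]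
    omega
  · intro l hl
    have h1 : ∑ i ∈ Finset.range I.length, (if decide (l = i) then 1 else 0) = 1 := by
      simp only [decide_eq_true_eq]
      rw [Finset.sum_ite_eq, if_pos (Finset.mem_range.2 hl)]
    have c0 := cn_count I ⟨l, hl⟩ 0
    have c1 := cn_count I ⟨l, hl⟩ 1
    have c2 := cn_count I ⟨l, hl⟩ 2
    simp only [Finset.sum_add_distrib] at c0 c1 c2 ⊢
    rw [h1]
    omega
  · simp only [Finset.sum_const_zero]
    omega

end Pool.Agent.FairDiv
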