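import Pool.Agent.Lib_MP_42f051_lc.Dig

/-!
# The weights have a subset with the sum `k τ` iff the clauses are not-all-equal satisfiable
-/

namespace Pool.Agent.FairDiv

open Pool.Agent.RAC Pool.Agent.Lib_MP_8cd8c6_lc

variable {ν : Type} [DecidableEq ν] [Inhabited ν]

/-! ### Digits -/

theorem digb_od_sum (b : ℕ) (ds : List ℕ) :
    Nat.ofDigits b ds = ∑ p ∈ Finset.range ds.length, ds.getD p 0 * b ^ p := by
  induction ds with
  | nil => simp
  | cons d ds ih =>
    rw [Nat.ofDigits_cons, ih, List.length_cons, Finset.sum_range_succ', Finset.mul_sum]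
    simp only [List.getD_cons_succ, List.getD_cons_zero, pow_zero, mul_one]
    rw [add_comm]
    congr 1
    refine Finset.sum_congr rfl fun p _ => ?_
    rw [pow_succ]
    ring

theorem digb_od_range (b P : ℕ) (f : ℕ → ℕ) :
    Nat.ofDigits b ((List.range P).map f) = ∑ p ∈ Finset.range P, f p * b ^ p := by
  rw [digb_od_sum, List.length_map, List.length_range]
  refine Finset.sum_congr rfl fun p hp => ?_
  have h : p < P := Finset.mem_range.1 hp
  rw [List.getD_eq_getElem?_getD, List.getElem?_map, List.getElem?_range h]
  rfl

theorem digb_inj {b : ℕ} (hb : 1 < b) (P : ℕ) (f g : ℕ → ℕ) (hf : ∀ p < P, f p < b)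
    (hg : ∀ p < P, g p < b) :
    (∑ p ∈ Finset.range P, f p * b ^ p = ∑ p ∈ Finset.range P, g p * b ^ p) ↔
      ∀ p < P, f p = g p := by
  rw [← digb_od_range, ← digb_od_range]
  constructor
  · intro h p hp
    have h1 := Nat.ofDigits_inj_of_len_eq hb (by simp) (by
      intro x hx
      obtain ⟨q, hq, rfl⟩ := List.mem_map.1 hx
      exact hf q (List.mem_range.1 hq)) (by
      intro x hx
      obtain ⟨q, hq, rfl⟩ := List.mem_map.1 hx
      exact hg q (List.mem_range.1 hq)) h
    have h2 := congrArg (fun l : List ℕ => l[p]?) h1
    simpa [List.getElem?_map, List.getElem?_range hp] using h2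
  · intro h
    congr 1
    refine List.map_congr_left fun p hp => ?_
    exact h p (List.mem_range.1 hp)

/-- No carries: if all digits are less than `2 ^ n` the numbers are equal iff the digits are.
(`Nat.ofDigits_inj_of_len_eq`) -/
theorem subset_digits {n P : ℕ} (hn : 1 ≤ n) (L : List (List ℕ)) (hP : ∀ ds ∈ L, ds.length = P)
    (τs : List ℕ) (hτ : τs.length = P) (k : ℕ) (χ : ℕ → Bool)
    (h1 : ∀ p < P, ∑ o ∈ Finset.range L.length, (L.getD o []).getD p 0 < 2 ^ n)
    (h2 : ∀ p < P, k * τs.getD p 0 < 2 ^ n) :
    (∑ o ∈ Finset.range L.length,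
      (if χ o then (L.map (Nat.ofDigits (2 ^ n))).getD o 0 else 0) = k * Nat.ofDigits (2 ^ n) τs) ↔
    ∀ p < P, ∑ o ∈ Finset.range L.length, (if χ o then (L.getD o []).getD p 0 else 0) =
      k * τs.getD p 0 := by
  have hb : 1 < 2 ^ n := Nat.one_lt_two_pow (by omega)
  have e1 : ∑ o ∈ Finset.range L.length,
      (if χ o then (L.map (Nat.ofDigits (2 ^ n))).getD o 0 else 0) =
      ∑ p ∈ Finset.range P, (∑ o ∈ Finset.range L.length,
        (if χ o then (L.getD o []).getD p 0 else 0)) * (2 ^ n) ^ p := by
    have h3 : ∀ o ∈ Finset.range L.length,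
        (if χ o then (L.map (Nat.ofDigits (2 ^ n))).getD o 0 else 0) =
        ∑ p ∈ Finset.range P, (if χ o then (L.getD o []).getD p 0 else 0) * (2 ^ n) ^ p := by
      intro o ho
      have ho' : o < L.length := Finset.mem_range.1 ho
      cases χ o with
      | false => simp
      | true =>
        have h4 : (L.map (Nat.ofDigits (2 ^ n))).getD o 0 = Nat.ofDigits (2 ^ n) (L.getD o []) := by
          rw [List.getD_eq_getElem?_getD, List.getElem?_map, List.getD_eq_getElem?_getD,
            List.getElem?_eq_getElem ho']
          rfl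
        have h5 : (L.getD o []).length = P := by
          rw [List.getD_eq_getElem?_getD, List.getElem?_eq_getElem ho']
          exact hP _ (List.getElem_mem ho')
        simp only [if_true]
        rw [h4, digb_od_sum, h5]
    rw [Finset.sum_congr rfl h3, Finset.sum_comm]
    refine Finset.sum_congr rfl fun p _ => ?_
    rw [Finset.sum_mul]
  have e2 : k * Nat.ofDigits (2 ^ n) τs =
      ∑ p ∈ Finset.range P, (k * τs.getD p 0) * (2 ^ n) ^ p := by
    rw [digb_od_sum, hτ, Finset.mul_sum]
    refine Finset.sum_congr rfl fun p _ => ?_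
    ring
  rw [e1, e2]
  refine digb_inj hb P _ _ ?_ h2
  intro p hp
  refine lt_of_le_of_lt (Finset.sum_le_sum fun o _ => ?_) (h1 p hp)
  split_ifs
  · exact le_rfl
  · exact Nat.zero_le _

/-! ### Sums over lists of lists -/

theorem digb_sum_append (L₁ L₂ : List (List ℕ)) (G : ℕ → List ℕ → ℕ) :
    ∑ o ∈ Finset.range (L₁ ++ L₂).length, G o ((L₁ ++ L₂).getD o []) =
      ∑ o ∈ Finset.range L₁.length, G o (L₁.getD o []) +
        ∑ o ∈ Finset.range L₂.length, G (L₁.length + o) (L₂.getD o []) := by
  rw [List.length_append, Finset.sum_range_add]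
  congr 1
  · refine Finset.sum_congr rfl fun o ho => ?_
    rw [List.getD_append _ _ _ _ (Finset.mem_range.1 ho)]
  · refine Finset.sum_congr rfl fun o _ => ?_
    rw [List.getD_append_right _ _ _ _ (by omega), Nat.add_sub_cancel_left]

theorem digb_sum_map (N : ℕ) (f : ℕ → List ℕ) (G : ℕ → List ℕ → ℕ) :
    ∑ o ∈ Finset.range ((List.range N).map f).length, G o (((List.range N).map f).getD o []) =
      ∑ o ∈ Finset.range N, G o (f o) := by
  rw [List.length_map, List.length_range]
  refine Finset.sum_congr rfl fun o ho => ?_
  have h : o < N := Finset.mem_range.1 ho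
  rw [List.getD_eq_getElem?_getD, List.getElem?_map, List.getElem?_range h]
  rfl

theorem digb_digs (n : ℕ) (I : List (Trip ν)) (G : ℕ → List ℕ → ℕ) :
    ∑ o ∈ Finset.range (digs n I).length, G o ((digs n I).getD o []) =
      ∑ i ∈ Finset.range (3 * I.length), G i (dT I true i) +
      (∑ i ∈ Finset.range (3 * I.length), G (3 * I.length + i) (dT I false i) +
      (∑ l ∈ Finset.range I.length, G (6 * I.length + l) (dS I.length l) +
      (G (7 * I.length) (dF I.length) + G (7 * I.length + 1) (dE n I.length)))) := by
  unfold digs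
  rw [digb_sum_append, digb_sum_map]
  rw [List.length_map, List.length_range,
    digb_sum_append _ _ (fun o ds => G (3 * I.length + o) ds),
    digb_sum_map _ _ (fun o ds => G (3 * I.length + o) ds)]
  rw [List.length_map, List.length_range,
    digb_sum_append _ _ (fun o ds => G (3 * I.length + (3 * I.length + o)) ds),
    digb_sum_map _ _ (fun o ds => G (3 * I.length + (3 * I.length + o)) ds)]
  rw [List.length_map, List.length_range]
  congr 2
  have h1 : ∀ l, 3 * I.length + (3 * I.length + l) = 6 * I.length + l := fun l => by omega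
  have h2 : ∀ l, 3 * I.length + (3 * I.length + (I.length + l)) = 7 * I.length + l :=
    fun l => by omega
  simp only [h1, List.length_cons, List.length_nil, Finset.sum_range_succ, Finset.sum_range_zero,
    zero_add, List.getD_cons_zero, List.getD_cons_succ, h2, add_zero]
  congr 2
  · congr 1
    omega
  · congr 1
    omega

/-! ### Digits of the weights -/

theorem digb_get1 (a b : ℕ) (f g : ℕ → ℕ) (c p : ℕ) (hp : p < a) :
    ((List.range a).map f ++ ((List.range b).map g ++ [c])).getD p 0 = f p := by
  rw [List.getD_append _ _ _ _ (by simpa using hp), List.getD_eq_getElem?_getD, List.getElem?_map,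
    List.getElem?_range hp]
  rfl

theorem digb_get2 (a b : ℕ) (f g : ℕ → ℕ) (c l : ℕ) (hl : l < b) :
    ((List.range a).map f ++ ((List.range b).map g ++ [c])).getD (a + l) 0 = g l := by
  rw [List.getD_append_right _ _ _ _ (by simp), List.length_map, List.length_range,
    Nat.add_sub_cancel_left, List.getD_append _ _ _ _ (by simpa using hl),
    List.getD_eq_getElem?_getD, List.getElem?_map, List.getElem?_range hl]
  rfl

theorem digb_get3 (a b : ℕ) (f g : ℕ → ℕ) (c : ℕ) :
    ((List.range a).map f ++ ((List.range b).map g ++ [c])).getD (a + b) 0 = c := by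
  rw [List.getD_append_right _ _ _ _ (by simp), List.length_map, List.length_range,
    Nat.add_sub_cancel_left, List.getD_append_right _ _ _ _ (by simp), List.length_map,
    List.length_range, Nat.sub_self]
  rfl

/-- the digit of the subset `χ` -/
def dg (n : ℕ) (I : List (Trip ν)) (χ : ℕ → Bool) (p : ℕ) : ℕ :=
  ∑ o ∈ Finset.range (digs n I).length, (if χ o then ((digs n I).getD o []).getD p 0 else 0)

theorem digb_var (n : ℕ) (I : List (Trip ν)) (χ : ℕ → Bool) (i : ℕ) (hi : i < 3 * I.length) :
    dg n I χ i = (χ i).toNat + (χ (3 * I.length + i)).toNat +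
      (if χ (7 * I.length + 1) then n - 2 else 0) := by
  unfold dg
  rw [digb_digs n I (fun o ds => if χ o then ds.getD i 0 else 0)]
  unfold dT dS dF dE
  simp only [digb_get1 _ _ _ _ _ _ hi, decide_eq_true_eq, ite_self, Finset.sum_const_zero,
    zero_add]
  have h1 : ∀ ψ : ℕ → Bool, ∑ x ∈ Finset.range (3 * I.length),
      (if ψ x = true then (if i = x then 1 else 0) else 0) = (ψ i).toNat := by
    intro ψ
    rw [Finset.sum_eq_single i]
    · cases ψ i <;> simp
    · intro x _ hx
      rw [if_neg (Ne.symm hx), ite_self]
    · intro h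
      exact absurd (Finset.mem_range.2 hi) h
  rw [h1 χ, h1 (fun x => χ (3 * I.length + x))]
  omega

theorem digb_top (n : ℕ) (I : List (Trip ν)) (χ : ℕ → Bool) :
    dg n I χ (3 * I.length + I.length) = (χ (7 * I.length)).toNat +
      (if χ (7 * I.length + 1) then n - 1 else 0) := by
  unfold dg
  rw [digb_digs n I (fun o ds => if χ o then ds.getD (3 * I.length + I.length) 0 else 0)]
  unfold dT dS dF dE
  simp only [digb_get3, ite_self, Finset.sum_const_zero, zero_add]
  cases χ (7 * I.length) <;> simp

theorem digb_one (I : List (Trip ν)) (l : Fin I.length) (h : Fin 3) (s : Bool) (ψ : ℕ → Bool) :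
    ∑ i ∈ Finset.range (3 * I.length),
      (if ψ i = true then (if cn I l.val i h s = true then 1 else 0) else 0) =
      (((dat I).sg l h == s) && ψ ((dat I).idx l h).val).toNat := by
  have hlt : ((dat I).idx l h).val < 3 * I.length := ((dat I).idx l h).2
  rw [Finset.sum_eq_single ((dat I).idx l h).val]
  · have h1 := cn_iff I l ((dat I).idx l h) h s
    by_cases h2 : (dat I).sg l h = s
    · rw [if_pos (h1.2 ⟨rfl, h2⟩), h2]
      cases ψ ((dat I).idx l h).val <;> simp
    · have h3 : ¬ cn I l.val ((dat I).idx l h).val h s = true := fun h4 => h2 (h1.1 h4).2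
      rw [if_neg h3, ite_self]
      have h5 : ((dat I).sg l h == s) = false := by
        rw [beq_eq_false_iff_ne]
        exact h2
      rw [h5]
      rfl
  · intro i hi hne
    have h3 : ¬ cn I l.val i h s = true := by
      intro h4
      have h5 := (cn_iff I l ⟨i, Finset.mem_range.1 hi⟩ h s).1 h4
      exact hne (congrArg Fin.val h5.1).symm
    rw [if_neg h3, ite_self]
  · intro h
    exact absurd (Finset.mem_range.2 hlt) h

/-- the value of the subset at the `h`-th literal of the clause `l` -/
def lv (I : List (Trip ν)) (χ : ℕ → Bool) (l : Fin I.length) (h : Fin 3) : Bool :=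
  if (dat I).sg l h then χ ((dat I).idx l h).val else χ (3 * I.length + ((dat I).idx l h).val)

theorem digb_cl (n : ℕ) (I : List (Trip ν)) (χ : ℕ → Bool) (l : Fin I.length) :
    dg n I χ (3 * I.length + l.val) =
      (lv I χ l 0).toNat + (lv I χ l 1).toNat + (lv I χ l 2).toNat +
      (χ (6 * I.length + l.val)).toNat + (if χ (7 * I.length + 1) then 2 * (n - 2) else 0) := by
  unfold dg
  rw [digb_digs n I (fun o ds => if χ o then ds.getD (3 * I.length + l.val) 0 else 0)]
  unfold dT dS dF dE
  simp only [digb_get2 _ _ _ _ _ _ l.2, decide_eq_true_eq, ite_self, zero_add]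
  have h1 : ∀ (ψ : ℕ → Bool) (s : Bool), ∑ i ∈ Finset.range (3 * I.length),
      (if ψ i = true then ((if cn I l.val i 0 s = true then 1 else 0) +
        ((if cn I l.val i 1 s = true then 1 else 0) +
          (if cn I l.val i 2 s = true then 1 else 0))) else 0) =
      (((dat I).sg l 0 == s) && ψ ((dat I).idx l 0).val).toNat +
      ((((dat I).sg l 1 == s) && ψ ((dat I).idx l 1).val).toNat +
      (((dat I).sg l 2 == s) && ψ ((dat I).idx l 2).val).toNat) := by
    intro ψ s
    rw [← digb_one I l 0 s ψ, ← digb_one I l 1 s ψ, ← digb_one I l 2 s ψ,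
      ← Finset.sum_add_distrib, ← Finset.sum_add_distrib]
    refine Finset.sum_congr rfl fun i _ => ?_
    split_ifs <;> rfl
  have h2 : ∑ x ∈ Finset.range I.length,
      (if χ (6 * I.length + x) = true then (if l.val = x then 1 else 0) else 0) =
      (χ (6 * I.length + l.val)).toNat := by
    rw [Finset.sum_eq_single l.val]
    · cases χ (6 * I.length + l.val) <;> simp
    · intro x _ hx
      rw [if_neg (Ne.symm hx), ite_self]
    · intro h
      exact absurd (Finset.mem_range.2 l.2) h
  rw [h1 χ true, h1 (fun i => χ (3 * I.length + i)) false, h2]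
  have h3 : ∀ h : Fin 3, (((dat I).sg l h == true) && χ ((dat I).idx l h).val).toNat +
      (((dat I).sg l h == false) && χ (3 * I.length + ((dat I).idx l h).val)).toNat =
      (lv I χ l h).toNat := by
    intro h
    unfold lv
    cases (dat I).sg l h <;> simp
  rw [← h3 0, ← h3 1, ← h3 2]
  omega

theorem digb_tau1 (m p : ℕ) (hp : p < 3 * m) : (dTau m).getD p 0 = 1 := by
  unfold dTau
  rw [digb_get1 _ _ _ _ _ _ hp]

theorem digb_tau2 (m l : ℕ) (hl : l < m) : (dTau m).getD (3 * m + l) 0 = 2 := by
  unfold dTau
  rw [digb_get2 _ _ _ _ _ _ hl]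

theorem digb_tau3 (m : ℕ) : (dTau m).getD (3 * m + m) 0 = 1 := by
  unfold dTau
  rw [digb_get3]

theorem digb_cases {m : ℕ} {Q : ℕ → Prop} (h1 : ∀ i < 3 * m, Q i) (h2 : ∀ l < m, Q (3 * m + l))
    (h3 : Q (3 * m + m)) : ∀ p < 4 * m + 1, Q p := by
  intro p hp
  by_cases hp1 : p < 3 * m
  · exact h1 p hp1
  · obtain ⟨l, rfl⟩ := Nat.exists_eq_add_of_le (not_lt.1 hp1)
    by_cases hl : l < m
    · exact h2 l hl
    · have : l = m := by omega
      subst this
      exact h3

/-- the subset with the sum `k τ` in terms of the digits -/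
theorem digb_iff {n : ℕ} (hn : 3 ≤ n) (I : List (Trip ν)) {k : ℕ} (hk : k < n) (χ : ℕ → Bool) :
    (∑ o ∈ Finset.range (nums n I).length, (if χ o then (nums n I).getD o 0 else 0) =
      k * tau n I.length) ↔
    (∀ i < 3 * I.length, (χ i).toNat + (χ (3 * I.length + i)).toNat +
      (if χ (7 * I.length + 1) then n - 2 else 0) = k) ∧
    (∀ l : Fin I.length, (lv I χ l 0).toNat + (lv I χ l 1).toNat + (lv I χ l 2).toNat +
      (χ (6 * I.length + l.val)).toNat + (if χ (7 * I.length + 1) then 2 * (n - 2) else 0) =
        k * 2) ∧
    (χ (7 * I.length)).toNat + (if χ (7 * I.length + 1) then n - 1 else 0) = k := by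
  have hpow : 2 * n < 2 ^ n := by
    obtain ⟨m, rfl⟩ := Nat.exists_eq_add_of_le hn
    have h1 : m + 1 ≤ 2 ^ m := Nat.lt_two_pow_self
    rw [pow_add]
    omega
  have hlen : (nums n I).length = (digs n I).length := by
    unfold nums
    rw [List.length_map]
  have htl : (dTau I.length).length = 4 * I.length + 1 := by
    unfold dTau
    simp
    omega
  have hbd : ∀ p < 4 * I.length + 1,
      ∑ o ∈ Finset.range (digs n I).length, ((digs n I).getD o []).getD p 0 < 2 ^ n := by
    have h1 : ∀ p, ∑ o ∈ Finset.range (digs n I).length, ((digs n I).getD o []).getD p 0 =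
        dg n I (fun _ => true) p := by
      intro p
      unfold dg
      simp only [if_true]
    intro p hp
    rw [h1]
    revert p
    apply digb_cases
    · intro i hi
      rw [digb_var n I _ i hi]
      simp only [Bool.toNat_true, if_true]
      omega
    · intro l hl
      rw [digb_cl n I _ ⟨l, hl⟩]
      have h2 : ∀ h, lv I (fun _ => true) ⟨l, hl⟩ h = true := by
        intro h
        unfold lv
        exact ite_self _
      simp only [h2, Bool.toNat_true, if_true]
      omega
    · rw [digb_top n I]
      simp only [Bool.toNat_true, if_true]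
      omega
  have hbd2 : ∀ p < 4 * I.length + 1, k * (dTau I.length).getD p 0 < 2 ^ n := by
    apply digb_cases
    · intro i hi
      rw [digb_tau1 _ _ hi]
      omega
    · intro l hl
      rw [digb_tau2 _ _ hl]
      omega
    · rw [digb_tau3]
      omega
  have key := subset_digits (by omega : 1 ≤ n) (digs n I) (dig_length n I) (dTau I.length) htl k χ
    hbd hbd2
  rw [hlen]
  unfold nums tau
  rw [key]
  constructor
  · intro h
    refine ⟨fun i hi => ?_, fun l => ?_, ?_⟩
    · have h1 := h i (by omega)
      rw [digb_tau1 _ _ hi] at h1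
      rw [← digb_var n I χ i hi]
      unfold dg
      rw [h1, mul_one]
    · have h1 := h (3 * I.length + l.val) (by have := l.2; omega)
      rw [digb_tau2 _ _ l.2] at h1
      rw [← digb_cl n I χ l]
      unfold dg
      exact h1
    · have h1 := h (3 * I.length + I.length) (by omega)
      rw [digb_tau3] at h1
      rw [← digb_top n I χ]
      unfold dg
      rw [h1, mul_one]
  · rintro ⟨h1, h2, h3⟩
    apply digb_cases
    · intro i hi
      rw [digb_tau1 _ _ hi, mul_one, ← h1 i hi, ← digb_var n I χ i hi]
      rfl
    · intro l hl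
      rw [digb_tau2 _ _ hl, ← h2 ⟨l, hl⟩, ← digb_cl n I χ ⟨l, hl⟩]
      rfl
    · rw [digb_tau3, mul_one, ← h3, ← digb_top n I χ]
      rfl

/-- the case where `e` is not in the subset -/
theorem digb_sat {n : ℕ} (hn : 3 ≤ n) (I : List (Trip ν)) {k : ℕ} (hk1 : 1 ≤ k) (hk : k < n)
    (χ : ℕ → Bool) (he : χ (7 * I.length + 1) = false)
    (h : ∑ o ∈ Finset.range (nums n I).length, (if χ o then (nums n I).getD o 0 else 0) =
      k * tau n I.length) : (dat I).Sat := by
  obtain ⟨h1, h2, h3⟩ := (digb_iff hn I hk χ).1 h
  simp only [he, Bool.false_eq_true, if_false, add_zero] at h1 h2 h3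
  have hk2 : k = 1 := by
    have : (χ (7 * I.length)).toNat ≤ 1 := Bool.toNat_le _
    omega
  subst hk2
  refine ⟨fun i => χ i.val, ?_⟩
  intro l
  have h4 : ∀ i < 3 * I.length, χ (3 * I.length + i) = !χ i := by
    intro i hi
    have h5 := h1 i hi
    revert h5
    cases χ i <;> cases χ (3 * I.length + i) <;> simp
  have h5 : ∀ h : Fin 3, lv I χ l h = !(xor (χ ((dat I).idx l h).val) ((dat I).sg l h)) := by
    intro h
    unfold lv
    rw [h4 _ ((dat I).idx l h).2]
    cases (dat I).sg l h <;> cases χ ((dat I).idx l h).val <;> rfl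
  have h6 := h2 l
  by_contra hcon
  push Not at hcon
  have h7 := hcon 0 1
  have h8 := hcon 0 2
  rw [h5 0, h5 1, h5 2, ← h7, ← h8] at h6
  revert h6
  cases (xor (χ ((dat I).idx l 0).val) ((dat I).sg l 0)) <;>
    cases χ (6 * I.length + l.val) <;> simp

/-- PROOF. All digit sums are at most `2 n < 2 ^ n`, so there are no carries: a subset has the sum `k τ`,
`k < n`, iff in every digit `p` the sum of the digits is `k` times the digit of `τ`.
If `e` (the last weight) is not in the subset: the top digit gives `k = 1` and `f` is in the subset;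
the variable digit `i` gives that exactly one of the weights `(i, true)`, `(i, false)` is in the subset,
this is the assignment; the clause digit `l`: the number of literals of the clause whose weight is in the
subset, plus 0 or 1, is 2, so not all and not none of the three.
If `e` is in the subset, the complement has the sum `(n - k) τ` and does not contain `e`.
Conversely, from a not-all-equal assignment: the weights `(i, X i)`, the slack weight of `l` if the number of
literals of the clause `l` in the subset is 1, and `f`; `k = 1`. (`Dat.Sat` in `SDefs.lean`: for every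
clause two of the three values `xor (X idx) sg` are different.) -/
theorem nums_iff {n : ℕ} (hn : 3 ≤ n) (I : List (Trip ν)) :
    SubK n (nums n I) (tau n I.length) ↔ (dat I).Sat := by
  constructor
  · rintro ⟨k, hk1, hk, χ, h⟩
    cases he : χ (7 * I.length + 1) with
    | false => exact digb_sat hn I hk1 hk χ he h
    | true =>
      refine digb_sat hn I (k := n - k) (by omega) (by omega) (fun o => !χ o) (by simp [he]) ?_
      have h1 : ∑ o ∈ Finset.range (nums n I).length, (if χ o then (nums n I).getD o 0 else 0) +
          ∑ o ∈ Finset.range (nums n I).length, (if !χ o then (nums n I).getD o 0 else 0) =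
          n * tau n I.length := by
        rw [← nums_sum hn I, ← Finset.sum_add_distrib]
        have h2 : ∀ o ∈ Finset.range (nums n I).length,
            (if χ o then (nums n I).getD o 0 else 0) + (if !χ o then (nums n I).getD o 0 else 0) =
              (nums n I).getD o 0 := by
          intro o _
          cases χ o <;> simp
        rw [Finset.sum_congr rfl h2]
        clear h2
        generalize nums n I = A
        induction A with
        | nil => simp
        | cons a A ih =>
          rw [List.length_cons, Finset.sum_range_succ', List.sum_cons]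
          simp only [List.getD_cons_succ, List.getD_cons_zero]
          rw [ih, add_comm]
      rw [h] at h1
      have h3 : n * tau n I.length = k * tau n I.length + (n - k) * tau n I.length := by
        rw [← add_mul]
        congr 1
        omega
      omega
  · rintro ⟨X, hX⟩
    let Y : ℕ → Bool := fun i => if hi : i < 3 * I.length then X ⟨i, hi⟩ else false
    have hY : ∀ (l : Fin I.length) (h : Fin 3), Y ((dat I).idx l h).val = X ((dat I).idx l h) := by
      intro l h
      have : ((dat I).idx l h).val < 3 * I.length := ((dat I).idx l h).2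
      simp only [Y, dif_pos this]
    let b : ℕ → Fin 3 → Bool := fun l h =>
      if hl : l < I.length then !(xor (Y ((dat I).idx ⟨l, hl⟩ h).val) ((dat I).sg ⟨l, hl⟩ h))
      else false
    let χ : ℕ → Bool := fun o => if o < 3 * I.length then Y o else
      if o < 6 * I.length then !Y (o - 3 * I.length) else
      if o < 7 * I.length then decide ((b (o - 6 * I.length) 0).toNat +
        (b (o - 6 * I.length) 1).toNat + (b (o - 6 * I.length) 2).toNat = 1) else
      decide (o = 7 * I.length)
    have c1 : ∀ i < 3 * I.length, χ i = Y i := by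
      intro i hi
      simp only [χ, if_pos hi]
    have c2 : ∀ i < 3 * I.length, χ (3 * I.length + i) = !Y i := by
      intro i hi
      simp only [χ]
      rw [if_neg (by omega), if_pos (by omega), Nat.add_sub_cancel_left]
    have c3 : ∀ l < I.length, χ (6 * I.length + l) =
        decide ((b l 0).toNat + (b l 1).toNat + (b l 2).toNat = 1) := by
      intro l hl
      simp only [χ]
      rw [if_neg (by omega), if_neg (by omega), if_pos (by omega), Nat.add_sub_cancel_left]
    have c4 : χ (7 * I.length) = true := by
      simp only [χ]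
      rw [if_neg (by omega), if_neg (by omega), if_neg (by omega)]
      simp
    have c5 : χ (7 * I.length + 1) = false := by
      simp only [χ]
      rw [if_neg (by omega), if_neg (by omega), if_neg (by omega)]
      simp
    have c6 : ∀ (l : Fin I.length) (h : Fin 3), lv I χ l h = b l.val h := by
      intro l h
      have hlt : ((dat I).idx l h).val < 3 * I.length := ((dat I).idx l h).2
      unfold lv
      rw [c1 _ hlt, c2 _ hlt]
      simp only [b, dif_pos l.2, Fin.eta]
      cases (dat I).sg l h <;> cases Y ((dat I).idx l h).val <;> rfl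
    refine ⟨1, le_rfl, by omega, χ, (digb_iff hn I (by omega) χ).2 ⟨?_, ?_, ?_⟩⟩
    · intro i hi
      rw [c1 i hi, c2 i hi, c5]
      cases Y i <;> simp
    · intro l
      rw [c6, c6, c6, c3 l.val l.2, c5]
      obtain ⟨h, h', hne⟩ := hX l
      have h1 : b l.val h ≠ b l.val h' := by
        intro h2
        simp only [b, dif_pos l.2, Fin.eta] at h2
        rw [hY, hY] at h2
        exact hne (Bool.not_inj h2)
      have h2 : ∀ u v w : Bool, (¬ (u = v ∧ v = w)) → u.toNat + v.toNat + w.toNat +
          (decide (u.toNat + v.toNat + w.toNat = 1)).toNat +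
          (if false = true then 2 * (n - 2) else 0) = 1 * 2 := by
        intro u v w
        cases u <;> cases v <;> cases w <;> simp
      apply h2
      rintro ⟨h3, h4⟩
      apply h1
      have h5 : ∀ h : Fin 3, b l.val h = b l.val 0 := by
        intro h
        fin_cases h
        · rfl
        · exact h3.symm
        · exact (h3.trans h4).symm
      rw [h5 h, h5 h']
    · rw [c4, c5]
      simp

end Pool.Agent.FairDiv
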