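import Pool.Agent.Lib_MP_42f051_lc.Defs
import Pool.Agent.Lib_MP_638f75_lc.RDefs

/-!
# The weights: digits

`I` is a list of `m` clauses with three literals (not-all-equal satisfiability, `dat I` of
`Lib_MP_638f75_lc/RDefs.lean`: variables `0, ..., 3 m - 1`). The weights have `4 m + 1` digits in the
basis `2 ^ n`: a digit for every variable, a digit for every clause, and the top digit.
-/

namespace Pool.Agent.FairDiv

open Pool.Agent.RAC Pool.Agent.Lib_MP_8cd8c6_lc

section

variable {ν : Type} [DecidableEq ν] [Inhabited ν]

/-- the `h`-th literal of the clause `l` has the variable `i` and the sign `s` -/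
def cn (I : List (Trip ν)) (l i : ℕ) (h : Fin 3) (s : Bool) : Bool :=
  clN I l i (2 * (3 * l + h.val) + (if s then 1 else 0)) h

/-- digits of the weight for the literal with the variable `i` and the sign `s` -/
def dT (I : List (Trip ν)) (s : Bool) (i : ℕ) : List ℕ :=
  (List.range (3 * I.length)).map (fun p => if decide (p = i) then 1 else 0) ++
  ((List.range I.length).map (fun l => (if cn I l i 0 s then 1 else 0) +
    ((if cn I l i 1 s then 1 else 0) + (if cn I l i 2 s then 1 else 0))) ++ [0])

end

/-- digits of the slack weight of the clause `l` -/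
def dS (m l : ℕ) : List ℕ :=
  (List.range (3 * m)).map (fun _ => 0) ++
  ((List.range m).map (fun l' => if decide (l' = l) then 1 else 0) ++ [0])

/-- digits of the weight `f` -/
def dF (m : ℕ) : List ℕ :=
  (List.range (3 * m)).map (fun _ => 0) ++ ((List.range m).map (fun _ => 0) ++ [1])

/-- digits of the weight `e` -/
def dE (n m : ℕ) : List ℕ :=
  (List.range (3 * m)).map (fun _ => n - 2) ++
  ((List.range m).map (fun _ => 2 * (n - 2)) ++ [n - 1])

/-- digits of the target -/
def dTau (m : ℕ) : List ℕ :=
  (List.range (3 * m)).map (fun _ => 1) ++ ((List.range m).map (fun _ => 2) ++ [1])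

/-- the digits of all weights -/
def digs {ν : Type} [DecidableEq ν] [Inhabited ν] (n : ℕ) (I : List (Trip ν)) : List (List ℕ) :=
  (List.range (3 * I.length)).map (fun i => dT I true i) ++
  ((List.range (3 * I.length)).map (fun i => dT I false i) ++
  ((List.range I.length).map (fun l => dS I.length l) ++ [dF I.length, dE n I.length]))

/-- the weights -/
def nums {ν : Type} [DecidableEq ν] [Inhabited ν] (n : ℕ) (I : List (Trip ν)) : List ℕ :=
  (digs n I).map (Nat.ofDigits (2 ^ n))

/-- the target -/
def tau (n m : ℕ) : ℕ := Nat.ofDigits (2 ^ n) (dTau m)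

end Pool.Agent.FairDiv
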