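import Pool.Agent.Lib_MP_42f051_lc.Dig
import Pool.Agent.Lib_MP_42f051_lc.Bin
import Pool.Agent.Lib_MP_638f75_lc.RFP

/-!
# The instance is computed in polynomial time
-/

namespace Pool.Agent.FairDiv

open Pool.Agent.RAC Pool.Agent.Lib_MP_8cd8c6_lc
open Pool.Agent.PartSep Pool.Agent.PartSep.TM Pool.Agent.PartSep.CL
open Pool.Agent.PartSep.TM.Rep N487b59b3

set_option synthInstance.maxSize 2000

variable {E : Type} [Rep E]

/-! ### Symbols -/

/-- removes the zeros at the end -/
def stripS (l : List Sym) : List Sym :=
  (l.reverse.foldl (fun (s : Bool × List Sym) a =>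
    if s.1 || decide (a = Sym.i) then (true, a :: s.2) else s) (false, [])).2

theorem stripS_map (l : List Bool) : stripS (l.map bs) = (strip l).map bs := by
  unfold stripS strip
  rw [← List.map_reverse]
  have key : ∀ (m : List Bool) (b : Bool) (r : List Bool),
      (m.map bs).foldl (fun (s : Bool × List Sym) a =>
        if s.1 || decide (a = Sym.i) then (true, a :: s.2) else s) (b, r.map bs) =
      ((m.foldl (fun (s : Bool × List Bool) a => if s.1 || a then (true, a :: s.2) else s)
        (b, r)).1, (m.foldl (fun (s : Bool × List Bool) a =>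
          if s.1 || a then (true, a :: s.2) else s) (b, r)).2.map bs) := by
    intro m
    induction m with
    | nil => intro b r; rfl
    | cons a m ih =>
      intro b r
      rw [List.map_cons, List.foldl_cons, List.foldl_cons]
      have e : decide (bs a = Sym.i) = a := by cases a <;> simp [bs]
      simp only [e]
      by_cases h : (b || a) = true
      · simp only [h, if_true]
        exact ih true (a :: r)
      · simp only [h, if_false, Bool.false_eq_true]
        exact ih b r
  have := key l.reverse false []
  rw [List.map_nil] at this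
  rw [this]

theorem fp_stripS {l : E → List Sym} (hl : FP l) : FP (fun x => stripS (l x)) := by
  unfold stripS
  refine FP.comp FP.snd (FP.foldl_growth (FP.reverse hl)
    (init := fun _ => (false, ([] : List Sym))) (FP.const _)
    (step := fun a y => if y.2.1 || decide (a = Sym.i) then (true, a :: y.2.2) else y.2)
    (fun a => ?_) 2 ?_)
  · exact FP.ite (FP.or (FP.comp FP.fst FP.snd) (FP.const _))
      (FP.pair (FP.const _) (FP.cons a (FP.comp FP.snd FP.snd))) FP.snd
  · rintro a x ⟨b, s⟩
    simp only [Polynomial.eval_ofNat]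
    split_ifs
    · simp only [size_pair, size_list, List.length_cons]
      have := size_bool true
      omega
    · omega

/-- the table of the digits -/
def tabS (n : ℕ) : List (List Sym) := (List.range (2 ^ n)).map (fun d => (bitsN n d).map bs)

/-- the bits of a digit -/
def bitsS (n d : ℕ) : List Sym := (tabS n)[d]?.getD []

theorem bitsS_eq {n d : ℕ} (h : d < 2 ^ n) : bitsS n d = (bitsN n d).map bs := by
  unfold bitsS tabS
  rw [List.getElem?_map, List.getElem?_range h]
  rfl

theorem fp_bitsS (n : ℕ) {d : E → ℕ} (hd : FP d) : FP (fun x => bitsS n (d x)) :=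
  FP.getE (FP.const (tabS n)) hd []

theorem fp_zeros {s : E → ℕ} (hs : FP s) : FP (fun x => List.replicate (s x) Sym.o) := by
  refine (FP.subst hs.unary (fun _ => [Sym.o])).congr (fun x => ?_)
  induction s x with
  | zero => rfl
  | succ k ih => rw [List.replicate_succ, List.flatMap_cons, ih]; rfl

/-- the code of a weight: `s` zeros and the digits -/
def entS (n s : ℕ) (ds : List ℕ) : List Sym :=
  stripS (List.replicate s Sym.o ++ ds.flatMap (bitsS n))

theorem flatMap_congr' {α β : Type} {l : List α} {f g : α → List β} (h : ∀ a ∈ l, f a = g a) :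
    l.flatMap f = l.flatMap g := by
  induction l with
  | nil => rfl
  | cons a l ih =>
    rw [List.flatMap_cons, List.flatMap_cons, h a List.mem_cons_self,
      ih fun b hb => h b (List.mem_cons_of_mem _ hb)]

theorem entS_eq {n s : ℕ} {ds : List ℕ} (h : ∀ d ∈ ds, d < 2 ^ n) :
    entS n s ds = (Computability.encodeNat (2 ^ s * Nat.ofDigits (2 ^ n) ds)).map bs := by
  rw [encode_shift n s ds h, ← stripS_map, List.map_append, List.map_replicate, List.map_flatMap]
  unfold entS
  rw [flatMap_congr' fun d hd => bitsS_eq (h d hd)]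
  rfl

theorem fp_entS (n : ℕ) {s : E → ℕ} (hs : FP s) {ds : E → List ℕ} (hd : FP ds) :
    FP (fun x => entS n (s x) (ds x)) := by
  unfold entS
  exact fp_stripS (FP.append (fp_zeros hs)
    (FP.flatMapS hd (g := fun y : E × ℕ => bitsS n y.2) (fp_bitsS n FP.snd)))

theorem flatMapConstS {ι : Type} (L : List ι) {g : ι → E → List Sym}
    (hg : ∀ a, FP (g a)) : FP (fun x => L.flatMap (fun a => g a x)) := by
  induction L with
  | nil => exact FP.const _
  | cons a L ih => exact FP.append (hg a) ih

/-! ### The code of the instance -/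

/-- number of entries -/
def entries (n : ℕ) {ν : Type} [DecidableEq ν] [Inhabited ν] (I : List (Trip ν)) : ℕ :=
  n * ((digs n I).length + n)

/-- the code of the instance -/
def outV (n : ℕ) {ν : Type} [DecidableEq ν] [Inhabited ν] (I : List (Trip ν)) : List Sym :=
  (List.range n).flatMap (fun i =>
    (digs n I).flatMap (fun ds => del (entS n (4 * entries n I) ds)) ++
    (List.range n).flatMap (fun j => del (if j = i then
      List.replicate (2 * entries n I) Sym.o ++ [Sym.i] else [])))

theorem outV_eq {ν : Type} [DecidableEq ν] [Inhabited ν] {n : ℕ} (hn : 3 ≤ n)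
    (I : List (Trip ν)) : outV n I = (bitEncode (inst n (nums n I))).map bs := by
  rw [bitEncode_list]
  unfold inst outV
  rw [List.flatMap_assoc]
  congr 1
  funext i
  rw [List.flatMap_append]
  congr 1
  · unfold nums
    rw [List.map_map, List.flatMap_map, List.length_map]
    apply flatMap_congr'
    intro ds hds
    rw [entS_eq (dig_lt hn I ds hds)]
    rfl
  · rw [List.flatMap_map]
    congr 1
    funext j
    have e0 : (nums n I).length = (digs n I).length := by unfold nums; rw [List.length_map]
    rw [e0]
    by_cases h : j = i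
    · simp only [if_pos h]
      change _ = del ((Computability.encodeNat _).map bs)
      rw [encode_pow, List.map_append, List.map_replicate]
      rfl
    · simp only [if_neg h]
      rfl

/-! ### Polynomial time -/

theorem fp_cn {I : E → List (Trip (NV Name))} (hI : FP I) {l i : E → ℕ} (hl : FP l)
    (hi : FP i) (h : Fin 3) (s : Bool) : FP (fun x => cn (I x) (l x) (i x) h s) :=
  fp_clN hI hl hi (FP.add (FP.mulConst (FP.add (FP.mulConst hl 3) (FP.const h.val)) 2)
    (FP.const (if s then 1 else 0))) h

theorem fp_dT {I : E → List (Trip (NV Name))} (hI : FP I) (s : Bool) {i : E → ℕ} (hi : FP i) :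
    FP (fun x => dT (I x) s (i x)) := by
  unfold dT
  refine FP.appendE ?_ (FP.appendE ?_ (FP.const _))
  · exact FP.mapE (FP.range (FP.mulConst (FP.lengthE hI) 3))
      (g := fun y : E × ℕ => if decide (y.2 = i y.1) then 1 else 0)
      (FP.ite (FP.natEq FP.snd (FP.comp hi FP.fst)) (FP.const _) (FP.const _))
  · refine FP.mapE (FP.range (FP.lengthE hI)) (g := fun y : E × ℕ =>
      (if cn (I y.1) y.2 (i y.1) 0 s then 1 else 0) +
        ((if cn (I y.1) y.2 (i y.1) 1 s then 1 else 0) +
          (if cn (I y.1) y.2 (i y.1) 2 s then 1 else 0))) ?_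
    have h : ∀ h : Fin 3, FP (fun y : E × ℕ => if cn (I y.1) y.2 (i y.1) h s then 1 else 0) :=
      fun h => FP.ite (fp_cn (FP.comp hI FP.fst) FP.snd (FP.comp hi FP.fst) h s) (FP.const _)
        (FP.const _)
    exact FP.add (h 0) (FP.add (h 1) (h 2))

theorem fp_const_row {k : E → ℕ} (hk : FP k) (c : ℕ) :
    FP (fun x => (List.range (k x)).map (fun _ => c)) :=
  FP.mapE (FP.range hk) (g := fun _ : E × ℕ => c) (FP.const _)

theorem fp_dS {m l : E → ℕ} (hm : FP m) (hl : FP l) : FP (fun x => dS (m x) (l x)) := by
  unfold dS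
  refine FP.appendE (fp_const_row (FP.mulConst hm 3) 0) (FP.appendE ?_ (FP.const _))
  exact FP.mapE (FP.range hm) (g := fun y : E × ℕ => if decide (y.2 = l y.1) then 1 else 0)
    (FP.ite (FP.natEq FP.snd (FP.comp hl FP.fst)) (FP.const _) (FP.const _))

theorem fp_dF {m : E → ℕ} (hm : FP m) : FP (fun x => dF (m x)) := by
  unfold dF
  exact FP.appendE (fp_const_row (FP.mulConst hm 3) 0)
    (FP.appendE (fp_const_row hm 0) (FP.const _))

theorem fp_dE (n : ℕ) {m : E → ℕ} (hm : FP m) : FP (fun x => dE n (m x)) := by
  unfold dE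
  exact FP.appendE (fp_const_row (FP.mulConst hm 3) _)
    (FP.appendE (fp_const_row hm _) (FP.const _))

theorem fp_digs (n : ℕ) {I : E → List (Trip (NV Name))} (hI : FP I) :
    FP (fun x => digs n (I x)) := by
  unfold digs
  have h3 := FP.range (FP.mulConst (FP.lengthE hI) 3)
  have hT : ∀ s, FP (fun x => (List.range (3 * (I x).length)).map (fun i => dT (I x) s i)) :=
    fun s => FP.mapE h3 (g := fun y : E × ℕ => dT (I y.1) s y.2)
      (fp_dT (FP.comp hI FP.fst) s FP.snd)
  refine FP.appendE (hT true) (FP.appendE (hT false) (FP.appendE ?_ ?_))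
  · exact FP.mapE (FP.range (FP.lengthE hI)) (g := fun y : E × ℕ => dS (I y.1).length y.2)
      (fp_dS (FP.lengthE (FP.comp hI FP.fst)) FP.snd)
  · exact FP.consE (fp_dF (FP.lengthE hI)) (FP.consE (fp_dE n (FP.lengthE hI)) (FP.const []))

theorem fp_outV (n : ℕ) {I : E → List (Trip (NV Name))} (hI : FP I) :
    FP (fun x => outV n (I x)) := by
  unfold outV
  have hd := fp_digs n hI
  have ht : FP (fun x => entries n (I x)) :=
    FP.mulConst (FP.add (FP.lengthE hd) (FP.const n)) n
  refine flatMapConstS _ (fun i => FP.append ?_ ?_)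
  · exact FP.flatMapS hd (g := fun y : E × List ℕ => del (entS n (4 * entries n (I y.1)) y.2))
      (FP.del (fp_entS n (FP.mulConst (FP.comp ht FP.fst) 4) FP.snd))
  · refine flatMapConstS _ (fun j => FP.del ?_)
    by_cases h : j = i
    · simp only [if_pos h]
      exact FP.append (fp_zeros (FP.mulConst ht 2)) (FP.const _)
    · simp only [if_neg h]
      exact FP.const _

end Pool.Agent.FairDiv
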