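import Pool.Agent.Lib_MP_42f051_lc.Comb
import Pool.Agent.Lib_MP_42f051_lc.DigB
import Pool.Agent.Lib_MP_42f051_lc.FPV
import Pool.Agent.Lib_MP_638f75_lc.RSat

/-!
# Generic NP-hardness of PROP-Sharings(n, n - 2) and EF-Sharings(n, n - 2)
-/

namespace Pool.Agent.FairDiv

open Pool.Agent.RAC Pool.Agent.Lib_MP_8cd8c6_lc
open Pool.Agent.PartSep Pool.Agent.PartSep.TM Pool.Agent.PartSep.CL
open Pool.Agent.PartSep.TM.Rep N487b59b3

set_option synthInstance.maxSize 2000

/-- a function with values in lists of numbers which is computed on the codes by `FP` -/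
theorem isPolyTime_list {f : List Bool → List ℕ} {g : List Sym → List Sym} (hg : FP g)
    (h : ∀ x, g ((bitEncode x).map bs) = (bitEncode (f x)).map bs) : N68a2faeb.IsPolyTime f :=
  FP.toTM2 (αΓ := Bool) (βΓ := Bool) bs sb bs sb_bs hg h

/-- super-polynomial -/
theorem pow_superpoly (k : ℕ) : ∃ t₀, ∀ t, t₀ ≤ t → t ^ k ≤ 2 ^ t := by
  have h := (tendsto_pow_const_div_const_pow_of_one_lt k (r := (2 : ℝ)) (by norm_num)).eventually
    (gt_mem_nhds one_pos)
  obtain ⟨t₀, h₀⟩ := Filter.eventually_atTop.1 h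
  refine ⟨t₀, fun t ht => ?_⟩
  have h1 := h₀ t ht
  rw [div_lt_one (by positivity)] at h1
  exact_mod_cast h1.le

/-- a number with `P` digits in the basis `2 ^ n` -/
theorem weight_le {ν : Type} [DecidableEq ν] [Inhabited ν] {n : ℕ} (hn : 3 ≤ n)
    (I : List (Trip ν)) : ∀ a ∈ nums n I, a ≤ 2 ^ (n * (4 * I.length + 1)) := by
  intro a ha
  obtain ⟨ds, hds, rfl⟩ := List.mem_map.1 ha
  have h1 := Nat.ofDigits_lt_base_pow_length (b := 2 ^ n) (l := ds)
    (Nat.one_lt_two_pow (by omega)) (dig_lt hn I ds hds)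
  rw [dig_length n I ds hds, ← pow_mul] at h1
  exact h1.le

theorem inst_le {ν : Type} [DecidableEq ν] [Inhabited ν] {n : ℕ} (hn : 3 ≤ n)
    (I : List (Trip ν)) : ∀ a ∈ inst n (nums n I), a ≤ 2 ^ (5 * (inst n (nums n I)).length) := by
  have hlen : (nums n I).length = 7 * I.length + 2 := by
    unfold nums
    rw [List.length_map, digs_length]
  intro a ha
  rw [inst_length]
  set t := n * ((nums n I).length + n) with ht
  have hb : n * (4 * I.length + 1) ≤ t := by
    rw [ht, hlen]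
    exact Nat.mul_le_mul_left n (by omega)
  unfold inst at ha
  obtain ⟨i, -, ha⟩ := List.mem_flatMap.1 ha
  rcases List.mem_append.1 ha with ha | ha
  · obtain ⟨b, hb1, rfl⟩ := List.mem_map.1 ha
    have h1 := weight_le hn I b hb1
    calc 2 ^ (4 * t) * b ≤ 2 ^ (4 * t) * 2 ^ t :=
          Nat.mul_le_mul_left _ (h1.trans (Nat.pow_le_pow_right (by norm_num) hb))
      _ = 2 ^ (5 * t) := by rw [← pow_add]; congr 1; ring
  · obtain ⟨j, -, rfl⟩ := List.mem_map.1 ha
    split_ifs
    · exact Nat.pow_le_pow_right (by norm_num) (by omega)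
    · exact Nat.zero_le _

/-- The reduction: for every language in NP there is a polynomial time map to instances which are
robust against changes of the entries by at most `2 ^ t`. -/
theorem reduction {n : ℕ} (hn : 3 ≤ n) {L : List Bool → Bool} (hL : L ∈ N68a2faeb.NP) :
    ∃ h : List Bool → List ℕ, N68a2faeb.IsPolyTime h ∧
      ∀ x, n ∣ (h x).length ∧ (∀ a ∈ h x, a ≤ 2 ^ (5 * (h x).length)) ∧
        ∀ y : List ℕ, y.length = (h x).length →
          (∀ i, |((y.getD i 0 : ℕ) : ℤ) - ((h x).getD i 0 : ℕ)| ≤ ((2 ^ (h x).length : ℕ) : ℤ)) →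
            (PropSharings n (n - 2) y ↔ L x = true) ∧ (EFSharings n (n - 2) y ↔ L x = true) := by
  obtain ⟨g, hg, hLg⟩ := cook_levin hL
  refine ⟨fun x => inst n (nums n (nae (g ((bitEncode x).map bs)))), ?_, fun x => ⟨?_, ?_, ?_⟩⟩
  · exact isPolyTime_list (g := fun s => outV n (nae (g s))) (fp_outV n (fp_nae hg))
      (fun x => outV_eq hn _)
  · rw [inst_length]
    exact Dvd.intro _ rfl
  · exact inst_le hn _
  · intro y hy hd
    set I := nae (g ((bitEncode x).map bs)) with hI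
    have h1 := comb hn (nums n I) (nums_pos hn I) (tau_pos n I.length) (nums_sum hn I) y hy hd
    rw [h1.1, h1.2, nums_iff hn, dat_sat, nae_iff, ← hLg]
    exact ⟨Iff.rfl, Iff.rfl⟩

/-- PROP-Sharings(n, n - 2) and EF-Sharings(n, n - 2) are generically NP-hard for all `n ≥ 3`. -/
theorem main (n : ℕ) (hn : 3 ≤ n) :
    GenericallyNPHard n (PropSharings n (n - 2)) ∧ GenericallyNPHard n (EFSharings n (n - 2)) := by
  obtain ⟨h, hh, H⟩ := reduction hn circLT3_mem_NP
  exact ⟨⟨5, circLT3, h, fun t => 2 ^ t, circLT3_complete.2, hh, pow_superpoly,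
      fun x => ⟨(H x).1, (H x).2.1, fun y hy hd => ((H x).2.2 y hy hd).1⟩⟩,
    ⟨5, circLT3, h, fun t => 2 ^ t, circLT3_complete.2, hh, pow_superpoly,
      fun x => ⟨(H x).1, (H x).2.1, fun y hy hd => ((H x).2.2 y hy hd).2⟩⟩⟩

end Pool.Agent.FairDiv
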